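import Pool.Agent.W2helper9.TC.Shear

/-!
# The displacement functions
-/

set_option autoImplicit false

open Set Filter Topology
open scoped ContDiff InnerProductSpace

namespace Pool.Agent.W2helper9.TC

variable {E : Type*} [NormedAddCommGroup E] [InnerProductSpace ℝ E]

/-- A smooth function on `E`, positive in the open unit ball with the exception of `l` points
where it vanishes, and zero outside of the open unit ball. -/
noncomputable def bmp (e0 : E) (l : ℕ) (v : E) : ℝ :=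
  expNegInvGlue (1 - ‖v‖ ^ 2) * ∏ j ∈ Finset.range l, ‖v - ((j : ℝ) / (l + 1)) • e0‖ ^ 2

theorem bmp_contDiff (e0 : E) (l : ℕ) : ContDiff ℝ ∞ (bmp e0 l) := by
  unfold bmp
  refine ContDiff.mul ?_ ?_
  · exact expNegInvGlue.contDiff.comp (contDiff_const.sub (contDiff_norm_sq ℝ))
  · refine contDiff_prod fun j _ => ?_
    exact (contDiff_norm_sq ℝ).comp (contDiff_id.sub contDiff_const)

theorem bmp_nonneg (e0 : E) (l : ℕ) (v : E) : 0 ≤ bmp e0 l v :=
  mul_nonneg (expNegInvGlue.nonneg _) (Finset.prod_nonneg fun _ _ => by positivity)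

theorem bmp_eq_zero_of_le (e0 : E) (l : ℕ) {v : E} (h : 1 ≤ ‖v‖) : bmp e0 l v = 0 := by
  unfold bmp
  rw [expNegInvGlue.zero_of_nonpos, zero_mul]
  nlinarith

theorem bmp_ne_zero_iff (e0 : E) (l : ℕ) (v : E) :
    bmp e0 l v ≠ 0 ↔ ‖v‖ < 1 ∧ ∀ j < l, v ≠ ((j : ℝ) / (l + 1)) • e0 := by
  unfold bmp
  rw [mul_ne_zero_iff, Finset.prod_ne_zero_iff]
  refine and_congr ?_ ?_
  · rw [Ne, expNegInvGlue.zero_iff_nonpos, not_le, sub_pos]
    constructor
    · intro h
      by_contra hc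
      push Not at hc
      nlinarith
    · intro h
      have := norm_nonneg v
      nlinarith
  · refine forall_congr' fun j => ?_
    rw [Finset.mem_range]
    refine imp_congr Iff.rfl ?_
    rw [Ne, pow_eq_zero_iff two_ne_zero, norm_eq_zero, sub_eq_zero]

theorem bmp_hasCompactSupport [FiniteDimensional ℝ E] (e0 : E) (l : ℕ) :
    HasCompactSupport (bmp e0 l) := by
  refine HasCompactSupport.of_support_subset_isCompact (isCompact_closedBall (0 : E) 1) ?_
  intro v hv
  rw [Function.mem_support, bmp_ne_zero_iff] at hv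
  rw [mem_closedBall_zero_iff]
  exact hv.1.le

variable {Y : Type*} [NormedAddCommGroup Y] [NormedSpace ℝ Y]

/-- the linear part of the arguments; the parameter space is `Y` with the coordinates `ev i` -/
noncomputable def linA (ev : ℕ → Y →L[ℝ] ℝ) (e0 : E) (i : ℕ) : (Y × E) →L[ℝ] E :=
  (8 * 2 ^ i : ℝ) • ContinuousLinearMap.snd ℝ Y E -
    (8 * 4 ^ i : ℝ) • ((ev i).comp (ContinuousLinearMap.fst ℝ Y E)).smulRight e0

theorem linA_apply (ev : ℕ → Y →L[ℝ] ℝ) (e0 : E) (i : ℕ) (z : Y × E) :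
    linA ev e0 i z = (8 * 2 ^ i : ℝ) • z.2 - (8 * 4 ^ i * ev i z.1 : ℝ) • e0 := by
  unfold linA
  simp only [sub_apply, ContinuousLinearMap.smulRight_apply, FunLike.coe_smul, Pi.smul_apply,
    ContinuousLinearMap.comp_apply, ContinuousLinearMap.coe_fst', ContinuousLinearMap.coe_snd',
    smul_smul]

/-- the term of index `i` -/
noncomputable def trm (ev : ℕ → Y →L[ℝ] ℝ) (e0 e1 : E) (i : ℕ) (z : Y × E) : ℝ :=
  bmp e0 (i + 1) (linA ev e0 i z - (8 : ℝ) • e1)

variable (ev : ℕ → Y →L[ℝ] ℝ)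

theorem trm_eq (e0 e1 : E) (i : ℕ) :
    trm ev e0 e1 i = (fun v => bmp e0 (i + 1) (v - (8 : ℝ) • e1)) ∘ linA ev e0 i := rfl

theorem trm_contDiff (e0 e1 : E) (i : ℕ) : ContDiff ℝ ∞ (trm ev e0 e1 i) := by
  rw [trm_eq]
  exact ((bmp_contDiff e0 (i + 1)).comp (contDiff_id.sub contDiff_const)).comp
    (linA ev e0 i).contDiff

theorem trm_bound [FiniteDimensional ℝ E] (e0 e1 : E) (i k : ℕ) :
    ∃ C : ℝ, 0 ≤ C ∧ ∀ z, ‖iteratedFDeriv ℝ k (trm ev e0 e1 i) z‖ ≤ C := by
  have h1 := (bmp_hasCompactSupport e0 (i + 1)).iteratedFDeriv (𝕜 := ℝ) k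
  obtain ⟨C, hC⟩ := h1.exists_bound_of_continuous
    ((bmp_contDiff e0 (i + 1)).continuous_iteratedFDeriv (mod_cast le_top))
  refine ⟨C * ∏ _j : Fin k, ‖linA ev e0 i‖, ?_, fun z => ?_⟩
  · exact mul_nonneg ((norm_nonneg _).trans (hC 0))
      (Finset.prod_nonneg fun _ _ => norm_nonneg (linA ev e0 i))
  · have hsm : ContDiff ℝ ∞ (fun v : E => bmp e0 (i + 1) (v - (8 : ℝ) • e1)) :=
      (bmp_contDiff e0 (i + 1)).comp (contDiff_id.sub contDiff_const)
    rw [trm_eq, ContinuousLinearMap.iteratedFDeriv_comp_right _ hsm _ (mod_cast le_top)]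
    refine (ContinuousMultilinearMap.norm_compContinuousLinearMap_le _ _).trans ?_
    refine mul_le_mul_of_nonneg_right ?_ (Finset.prod_nonneg fun _ _ => norm_nonneg _)
    rw [iteratedFDeriv_comp_sub]
    exact hC _

/-- small coefficients -/
structure Coef (e0 e1 : E) where
  /-- the coefficients -/
  d : ℕ → ℝ
  pos : ∀ i, 0 < d i
  le : ∀ i k, k ≤ i + 1 → ∀ z, ‖iteratedFDeriv ℝ k (fun z => d i * trm ev e0 e1 i z) z‖ ≤
    (1 / 2) ^ (i + 3)

theorem exists_coef [FiniteDimensional ℝ E] (e0 e1 : E) : Nonempty (Coef ev e0 e1) := by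
  have h := fun i k => trm_bound ev e0 e1 i k
  choose C hC0 hC using h
  have hpos : ∀ i, 0 < 1 + ∑ k ∈ Finset.range (i + 2), C i k := fun i => by
    have : 0 ≤ ∑ k ∈ Finset.range (i + 2), C i k := Finset.sum_nonneg fun k _ => hC0 i k
    linarith
  refine ⟨⟨fun i => (1 / 2) ^ (i + 3) / (1 + ∑ k ∈ Finset.range (i + 2), C i k), fun i => ?_,
    fun i k hk z => ?_⟩⟩
  · exact div_pos (by positivity) (hpos i)
  · have h1 : (fun z => (1 / 2) ^ (i + 3) / (1 + ∑ k ∈ Finset.range (i + 2), C i k) *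
        trm ev e0 e1 i z) = ((1 / 2 : ℝ) ^ (i + 3) / (1 + ∑ k ∈ Finset.range (i + 2), C i k)) •
          trm ev e0 e1 i := rfl
    rw [h1, iteratedFDeriv_const_smul_apply
      (((trm_contDiff ev e0 e1 i).of_le (mod_cast le_top)).contDiffAt), norm_smul]
    have h2 : C i k ≤ ∑ k ∈ Finset.range (i + 2), C i k :=
      Finset.single_le_sum (f := fun k => C i k) (fun k _ => hC0 i k)
        (Finset.mem_range.2 (by omega))
    have h3 := hC i k z
    rw [Real.norm_of_nonneg (div_nonneg (by positivity) (hpos i).le), div_mul_eq_mul_div,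
      div_le_iff₀ (hpos i)]
    have h4 : (0 : ℝ) < (1 / 2) ^ (i + 3) := by positivity
    refine mul_le_mul_of_nonneg_left ?_ h4.le
    linarith

variable {ev} {e0 e1 : E}

/-- the displacement function -/
noncomputable def dsp (K : Coef ev e0 e1) (z : Y × E) : ℝ := ∑' i, K.d i * trm ev e0 e1 i z

theorem dsp_term_contDiff (K : Coef ev e0 e1) (i : ℕ) :
    ContDiff ℝ ∞ (fun z => K.d i * trm ev e0 e1 i z) :=
  contDiff_const.mul (trm_contDiff ev e0 e1 i)

theorem summable_half (a : ℕ) : Summable (fun i : ℕ => (1 / 2 : ℝ) ^ (i + a)) := by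
  have h : Summable (fun i : ℕ => (1 / 2 : ℝ) ^ i) :=
    summable_geometric_of_lt_one (by norm_num) (by norm_num)
  exact (summable_nat_add_iff a).2 h

theorem dsp_contDiff (K : Coef ev e0 e1) : ContDiff ℝ ∞ (dsp K) := by
  refine contDiff_tsum_of_eventually (N := ⊤) (v := fun _ i => (1 / 2 : ℝ) ^ (i + 3))
    (fun i => dsp_term_contDiff K i) (fun _ _ => summable_half 3) (fun k _ => ?_)
  rw [Nat.cofinite_eq_atTop]
  filter_upwards [eventually_ge_atTop k] with i hi z
  exact K.le i k (by omega) z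

theorem dsp_term_le (K : Coef ev e0 e1) (i : ℕ) (z : Y × E) :
    |K.d i * trm ev e0 e1 i z| ≤ (1 / 2) ^ (i + 3) := by
  have h := K.le i 0 (by omega) z
  rw [norm_iteratedFDeriv_zero] at h
  exact h

theorem dsp_summable (K : Coef ev e0 e1) (z : Y × E) :
    Summable (fun i => K.d i * trm ev e0 e1 i z) :=
  Summable.of_norm_bounded (summable_half 3) fun i => dsp_term_le K i z

theorem dsp_term_lip (K : Coef ev e0 e1) (he : ‖e0‖ = 1) (i : ℕ) (y : Y) (u : E) (s : ℝ) :
    ‖K.d i * trm ev e0 e1 i (y, u + s • e0) - K.d i * trm ev e0 e1 i (y, u)‖ ≤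
      (1 / 2) ^ (i + 3) * |s| := by
  have h1 : ∀ z ∈ (univ : Set (Y × E)),
      DifferentiableAt ℝ (fun z => K.d i * trm ev e0 e1 i z) z :=
    fun z _ => (dsp_term_contDiff K i).differentiable (by simp) z
  have h2 : ∀ z ∈ (univ : Set (Y × E)), ‖fderiv ℝ (fun z => K.d i * trm ev e0 e1 i z) z‖ ≤
      (1 / 2) ^ (i + 3) := by
    intro z _
    rw [← norm_iteratedFDeriv_one]
    exact K.le i 1 (by omega) z
  have h3 := convex_univ.norm_image_sub_le_of_norm_fderiv_le h1 h2 (mem_univ (y, u))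
    (mem_univ (y, u + s • e0))
  have h4 : ((y, u + s • e0) : Y × E) - (y, u) = (0, s • e0) := by
    rw [Prod.mk_sub_mk, sub_self, add_sub_cancel_left]
  rw [h4, Prod.norm_mk, norm_zero, norm_smul, he, mul_one, max_eq_right (norm_nonneg _)] at h3
  exact h3

theorem dsp_halfLip (K : Coef ev e0 e1) (he : ‖e0‖ = 1) (y : Y) :
    HalfLip (fun u => dsp K (y, u)) e0 := by
  intro u s
  have h1 := (dsp_summable K (y, u + s • e0)).tsum_sub (dsp_summable K (y, u))
  show |(∑' i, K.d i * trm ev e0 e1 i (y, u + s • e0)) - ∑' i, K.d i * trm ev e0 e1 i (y, u)| ≤ _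
  rw [← h1]
  have h2 : HasSum (fun i : ℕ => (1 / 2 : ℝ) ^ (i + 3) * |s|) (1 / 4 * |s|) := by
    refine HasSum.mul_right _ ?_
    have h := hasSum_geometric_two.mul_left (1 / 8)
    have e : (fun i : ℕ => (1 / 2 : ℝ) ^ (i + 3)) = fun i : ℕ => 1 / 8 * (1 / 2 : ℝ) ^ i := by
      funext i; rw [pow_add]; norm_num [mul_comm]
    rw [e]
    convert h using 1
    norm_num
  have h3 := tsum_of_norm_bounded h2 (fun i => dsp_term_lip K he i y u s)
  have h4 := abs_nonneg s
  rw [Real.norm_eq_abs] at h3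
  linarith

end Pool.Agent.W2helper9.TC
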