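import Pool.Agent.W2helper9.TC.Top
import Pool.Agent.H468R2.KA.P_F_perm
import Pool.Agent.H468R2.KA.P_F_top
import Pool.Agent.H468R2.KA.P_F_vt
import Pool.Agent.H468R2.KA.P_F_gen
import Pool.Agent.H468R2.MA.P_T_BF
import Pool.Agent.H468R2.MA.P_T_C
import Pool.Agent.H468R2.MA.P_T_CH
import Pool.Agent.H468R2.MA.P_T_LOC
import Pool.Agent.H468R2.MA.P_T_LOC1
import Pool.Agent.H468R2.MA.P_T_SC

/-!
# Topological conjugacy of diffeomorphisms is not reducible to an action of the symmetric group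
-/

set_option autoImplicit false
set_option linter.unusedSectionVars false

open Set Filter Topology MeasureTheory
open scoped ContDiff InnerProductSpace Manifold
open Pool.H110K2 Pool.Agent.H468R2

namespace Pool.Agent.W2helper9.TC

universe u v

theorem p_perm : KA.F_perm.{v} :=
  KA.t_F_perm KA.t_F_top (KA.t_F_vt KA.t_F_top)
    (MA.t_T_ERG (MA.t_T_C MA.t_T_SC (MA.t_T_LOC MA.t_T_SC (MA.t_T_LOC1 MA.t_T_SC))) MA.t_T_CH)

/-- the smooth topology -/
@[reducible] def smT (E : Type*) [NormedAddCommGroup E] [NormedSpace ℝ E] (M : Type*) [TopologicalSpace M]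
    [ChartedSpace E M] : TopologicalSpace (Dif E M) :=
  TopologicalSpace.generateFrom {U | ∃ φ ∈ IsManifold.maximalAtlas 𝓘(ℝ, E) ∞ M,
    ∃ ψ ∈ IsManifold.maximalAtlas 𝓘(ℝ, E) ∞ M, ∃ K : Set M, IsCompact K ∧ K ⊆ φ.source ∧
      ∃ f : Dif E M, (∀ p ∈ K, f p ∈ ψ.source) ∧ ∃ (k : ℕ) (ε : ℝ), 0 < ε ∧
        U = nbd φ ψ K f k ε}

variable {E : Type*} [NormedAddCommGroup E] [InnerProductSpace ℝ E] [FiniteDimensional ℝ E]
variable {e0 e1 : E} {M : Type*} [TopologicalSpace M] [T2Space M] [Nonempty M] [ChartedSpace E M]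
  [IsManifold 𝓘(ℝ, E) ∞ M]

/-- the family of diffeomorphisms -/
theorem exists_family (h : ON e0 e1) : ∃ D : (ℕ → ℝ) → Dif E M,
    @Continuous _ _ _ (smT E M) D ∧
    (∀ x y : ℕ → ℝ, Summable (fun n => |x n - y n|) →
      ∃ g : M ≃ₜ M, ∀ p, g (D x p) = D y (g p)) ∧
    (∀ x y : ℕ → ℝ, (∃ g : M ≃ₜ M, ∀ p, g (D x p) = D y (g p)) →
      Tendsto (fun i => |pos x i - pos y i|) atTop (𝓝 0)) := by
  obtain ⟨χ, hM, hχ⟩ := exists_chart (E := E) (M := M)
  obtain ⟨K⟩ := exists_coef cev e0 e1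
  have hcd : ∀ x : ℕ → ℝ, ContDiff ℝ ∞ (fun u => dsp K (par x, u)) := fun x =>
    (dsp_contDiff K).comp (contDiff_prodMk_right (par x))
  have hsup : ∀ x : ℕ → ℝ, Sup (mdl K (par x)) := fun x =>
    mdl_sup h K (pos_mem x) (par_isPar x)
  let D : (ℕ → ℝ) → Dif E M := fun x =>
    trDiffeo hχ hM (shearHomeo (fun u => dsp K (par x, u)) e0 (dsp_halfLip K h.n0 (par x))
      (hcd x).continuous) (hsup x)
      (shearHomeo_contDiff (dsp_halfLip K h.n0 (par x)) (hcd x))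
      (shearHomeo_symm_contDiff (dsp_halfLip K h.n0 (par x)) (hcd x))
  have hD : ∀ x p, D x p = tr χ (mdl K (par x)) p := fun x p => rfl
  refine ⟨D, ?_, fun x y hxy => ?_, fun x y => ?_⟩
  · refine continuous_generateFrom_iff.2 ?_
    rintro U ⟨φ, hφ, ψ, hψ, C, hC, hCφ, f, hf, k, ε, -, rfl⟩
    have hH : ContDiff ℝ ∞ (fun w : Par × E => w.2 + dsp K w • e0) :=
      contDiff_snd.add ((dsp_contDiff K).smul contDiff_const)
    exact family_nbd (H := fun w : Par × E => w.2 + dsp K w • e0) (y := par) hχ hM hφ hψ hH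
      par_continuous hsup hC hCφ f hf k ε D hD
  · obtain ⟨g, hg⟩ := conj_exists (M := M) h K (pos_mem x) (pos_mem y) (par_isPar x) (par_isPar y) hχ
      (pos_summable hxy)
    exact ⟨g, fun p => hg p⟩
  · rintro ⟨g, hg⟩
    exact conj_close h K (pos_mem x) (pos_mem y) (par_isPar x) (par_isPar y) hχ
      (fun a h0 h1 => pos_cluster x y a h0 h1) g hg

theorem not_close {x y : ℕ → ℝ} (h : ∀ n, ∃ k, n ≤ k ∧ KA.cc x k = 0 ∧ KA.R k ≤ KA.cc y k) :
    ¬ Tendsto (fun i => |pos x i - pos y i|) atTop (𝓝 0) := by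
  intro ht
  rw [Metric.tendsto_atTop] at ht
  obtain ⟨N, hN⟩ := ht (1 / 2) (by norm_num)
  obtain ⟨k, hk, h1, h2⟩ := h (N + 1)
  have h3 := hN (2 * k) (by omega)
  rw [Real.dist_eq, sub_zero, abs_abs, pos_even, pos_even] at h3
  have hR : (KA.R k : ℝ) = 2 ^ k := by unfold KA.R; push_cast; rfl
  have hR1 : (2 : ℝ) ≤ 2 ^ k := by
    have : (2 : ℝ) ^ 1 ≤ 2 ^ k := pow_le_pow_right₀ (by norm_num) (by omega)
    linarith
  have h4 : clip (x k) < 1 / 2 := by
    unfold KA.cc at h1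
    rw [Nat.floor_eq_zero, hR] at h1
    unfold clip
    by_contra hc
    push Not at hc
    nlinarith
  have h5 : 1 ≤ clip (y k) := by
    unfold KA.cc at h2
    rw [Nat.le_floor_iff (by positivity), hR] at h2
    unfold clip
    by_contra hc
    push Not at hc
    nlinarith
  rw [abs_sub_comm, abs_of_pos (by linarith)] at h3
  linarith

/-- the main theorem -/
theorem final (h : ON e0 e1) (Z : Type v) [MeasurableSpace Z] [StandardBorelSpace Z]
    [MulAction (Equiv.Perm ℕ) Z]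
    (hZ : @Measurable _ _ (KA.permMS.prod inferInstance) _ (fun p : Equiv.Perm ℕ × Z => p.1 • p.2)) :
    ¬ ∃ F : Dif E M → Z, @Measurable _ _ (@borel (Dif E M) (smT E M)) _ F ∧
      ∀ f g : Dif E M, (∃ k : M ≃ₜ M, ∀ p, k (f p) = g (k p)) ↔
        ∃ π : Equiv.Perm ℕ, π • F f = F g := by
  rintro ⟨F, hF, hred⟩
  obtain ⟨D, hD, hup, hlow⟩ := exists_family (M := M) h
  have hDm : @Measurable _ _ _ (@borel (Dif E M) (smT E M)) D := by
    letI : TopologicalSpace (Dif E M) := smT E M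
    letI : MeasurableSpace (Dif E M) := borel (Dif E M)
    haveI : BorelSpace (Dif E M) := ⟨rfl⟩
    exact hD.measurable
  have hm : Measurable (fun x : ℕ → ℝ => F (D x)) := by
    letI m1 : MeasurableSpace (Dif E M) := @borel (Dif E M) (smT E M)
    exact hF.comp hDm
  obtain ⟨C, hC, hCi⟩ := p_perm Z hZ _ hm (fun x y hxy => (hred _ _).1 (hup x y hxy))
  obtain ⟨x, hx, y, hy, hxy⟩ := KA.t_F_gen C hC
  exact not_close hxy (hlow x y ((hred _ _).2 (hCi x hx y hy)))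

end Pool.Agent.W2helper9.TC
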