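import Pool.Agent.W2helper9.TC.Disp

/-!
# The balls carrying the displacement, and the conjugating shear maps
-/

set_option autoImplicit false
set_option linter.unusedSectionVars false

open Set Filter Topology
open scoped ContDiff InnerProductSpace

namespace Pool.Agent.W2helper9.TC

variable {E : Type*} [NormedAddCommGroup E] [InnerProductSpace ℝ E]
variable {Y : Type*} [NormedAddCommGroup Y] [NormedSpace ℝ Y]
variable {ev : ℕ → Y →L[ℝ] ℝ} {e0 e1 : E}

/-- the pair `e0`, `e1` is orthonormal -/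
structure ON (e0 e1 : E) : Prop where
  n0 : ‖e0‖ = 1
  n1 : ‖e1‖ = 1
  o : ⟪e1, e0⟫_ℝ = 0

/-- centre -/
noncomputable def ctr (e0 e1 : E) (σ : ℕ → ℝ) (i : ℕ) : E := σ i • e0 + (1 / 2 : ℝ) ^ i • e1

/-- radius -/
noncomputable def rad (i : ℕ) : ℝ := (1 / 2) ^ i / 8

/-- special points -/
noncomputable def spt (e0 e1 : E) (σ : ℕ → ℝ) (i j : ℕ) : E :=
  ctr e0 e1 σ i + ((j : ℝ) / (i + 2) * rad i) • e0

/-- the profile in the ball of index `i` -/
noncomputable def bal (K : Coef ev e0 e1) (i : ℕ) (v : E) : ℝ :=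
  K.d i * bmp e0 (i + 1) ((8 * 2 ^ i : ℝ) • v)

theorem rad_pos (i : ℕ) : 0 < rad i := by unfold rad; positivity

theorem half_two (i : ℕ) : (8 * 2 ^ i : ℝ) * rad i = 1 := by
  unfold rad
  have : (2 : ℝ) ^ i * (1 / 2) ^ i = 1 := by rw [← mul_pow]; norm_num
  linarith

/-- `y` is the parameter of the sequence `σ` -/
def IsPar (ev : ℕ → Y →L[ℝ] ℝ) (σ : ℕ → ℝ) (y : Y) : Prop := ∀ i, ev i y = (1 / 2) ^ i * σ i

theorem trm_ctr {σ : ℕ → ℝ} {y : Y} (hy : IsPar ev σ y) (i : ℕ) (u : E) :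
    trm ev e0 e1 i (y, u) = bmp e0 (i + 1) ((8 * 2 ^ i : ℝ) • (u - ctr e0 e1 σ i)) := by
  unfold trm
  congr 1
  rw [linA_apply, hy i]
  unfold ctr
  have h1 : (2 : ℝ) ^ i * (1 / 2) ^ i = 1 := by rw [← mul_pow]; norm_num
  have h2 : (4 : ℝ) ^ i * (1 / 2) ^ i = 2 ^ i := by rw [← mul_pow]; norm_num
  have h3 : (8 * 4 ^ i * ((1 / 2) ^ i * σ i) : ℝ) = 8 * 2 ^ i * σ i := by
    calc (8 * 4 ^ i * ((1 / 2) ^ i * σ i) : ℝ) = 8 * (4 ^ i * (1 / 2) ^ i) * σ i := by ring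
      _ = _ := by rw [h2]
  rw [h3]
  simp only [smul_sub, smul_add, smul_smul]
  have h4 : (8 * 2 ^ i * (1 / 2) ^ i : ℝ) = 8 := by rw [mul_assoc, h1, mul_one]
  rw [h4]
  abel

theorem dsp_eq (K : Coef ev e0 e1) {σ : ℕ → ℝ} {y : Y} (hy : IsPar ev σ y) (u : E) :
    dsp K (y, u) = ∑' i, bal K i (u - ctr e0 e1 σ i) := by
  unfold dsp bal
  refine tsum_congr fun i => ?_
  rw [trm_ctr hy]

theorem bal_ne_zero_iff (K : Coef ev e0 e1) (σ : ℕ → ℝ) (i : ℕ) (u : E) :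
    bal K i (u - ctr e0 e1 σ i) ≠ 0 ↔
      u ∈ Metric.ball (ctr e0 e1 σ i) (rad i) ∧ ∀ j < i + 1, u ≠ spt e0 e1 σ i j := by
  unfold bal
  rw [mul_ne_zero_iff, bmp_ne_zero_iff]
  have hp : (0 : ℝ) < 8 * 2 ^ i := by positivity
  constructor
  · rintro ⟨-, h1, h2⟩
    refine ⟨?_, fun j hj h => h2 j hj ?_⟩
    · rw [Metric.mem_ball, dist_eq_norm]
      rw [norm_smul, Real.norm_of_nonneg hp.le, ← half_two i] at h1
      exact lt_of_mul_lt_mul_left h1 hp.le
    · rw [h]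
      unfold spt
      rw [add_sub_cancel_left, smul_smul]
      congr 1
      have := half_two i
      push_cast
      calc (8 * 2 ^ i * ((j : ℝ) / (i + 2) * rad i)) = (j : ℝ) / (i + 2) * (8 * 2 ^ i * rad i) := by
            ring
        _ = j / (i + 1 + 1) := by rw [this, mul_one]; ring
  · rintro ⟨h1, h2⟩
    refine ⟨(K.pos i).ne', ?_, fun j hj h => h2 j hj ?_⟩
    · rw [Metric.mem_ball, dist_eq_norm] at h1
      rw [norm_smul, Real.norm_of_nonneg hp.le, ← half_two i]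
      exact mul_lt_mul_of_pos_left h1 hp
    · unfold spt
      have h3 : u - ctr e0 e1 σ i = (rad i) • ((8 * 2 ^ i : ℝ) • (u - ctr e0 e1 σ i)) := by
        rw [smul_smul, mul_comm, half_two, one_smul]
      rw [h, smul_smul] at h3
      have h4 : u = ctr e0 e1 σ i + (rad i * ((j : ℝ) / ((i + 1 : ℕ) + 1))) • e0 := by
        rw [← h3]; abel
      rw [h4]
      congr 2
      push_cast
      ring

theorem bal_nonneg (K : Coef ev e0 e1) (i : ℕ) (v : E) : 0 ≤ bal K i v :=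
  mul_nonneg (K.pos i).le (bmp_nonneg _ _ _)

theorem bal_eq_zero (K : Coef ev e0 e1) (i : ℕ) (v : E) (h : rad i ≤ ‖v‖) : bal K i v = 0 := by
  unfold bal
  rw [bmp_eq_zero_of_le, mul_zero]
  have hp : (0 : ℝ) < 8 * 2 ^ i := by positivity
  rw [norm_smul, Real.norm_of_nonneg hp.le, ← half_two i]
  exact mul_le_mul_of_nonneg_left h hp.le

theorem inner_ctr (h : ON e0 e1) (σ : ℕ → ℝ) (i : ℕ) :
    ⟪e1, ctr e0 e1 σ i⟫_ℝ = (1 / 2) ^ i := by
  unfold ctr
  rw [inner_add_right, inner_smul_right, inner_smul_right, h.o, real_inner_self_eq_norm_sq, h.n1]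
  ring

theorem height_close (h : ON e0 e1) (σ : ℕ → ℝ) (i : ℕ) (u : E) :
    |⟪e1, u⟫_ℝ - (1 / 2) ^ i| ≤ ‖u - ctr e0 e1 σ i‖ := by
  rw [← inner_ctr h σ i, ← inner_sub_right]
  refine (abs_real_inner_le_norm _ _).trans ?_
  rw [h.n1, one_mul]

/-- the heights of different balls are separated -/
theorem band {t : ℝ} {i j : ℕ} (hi : |t - (1 / 2) ^ i| ≤ (1 / 2) ^ i / 4)
    (hj : |t - (1 / 2) ^ j| ≤ (1 / 2) ^ j / 4) : i = j := by
  by_contra hne
  wlog hlt : i < j generalizing i j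
  · exact this hj hi (Ne.symm hne) (by omega)
  obtain ⟨k, rfl⟩ : ∃ k, j = i + 1 + k := ⟨j - (i + 1), by omega⟩
  have h1 : ((1 : ℝ) / 2) ^ (i + 1 + k) ≤ (1 / 2) ^ i / 2 := by
    rw [pow_add, pow_succ]
    have h2 : ((1 : ℝ) / 2) ^ k ≤ 1 := pow_le_one₀ (by norm_num) (by norm_num)
    have h3 : (0 : ℝ) ≤ (1 / 2) ^ i * (1 / 2) := by positivity
    nlinarith
  have h4 : (0 : ℝ) < (1 / 2) ^ i := by positivity
  have h5 := (abs_le.1 hi).1
  have h6 := (abs_le.1 hj).2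
  linarith

theorem bal_eq_zero_of_band (h : ON e0 e1) (K : Coef ev e0 e1) (σ : ℕ → ℝ) (i : ℕ) (u : E)
    (hu : ¬ |⟪e1, u⟫_ℝ - (1 / 2) ^ i| < rad i) : bal K i (u - ctr e0 e1 σ i) = 0 := by
  refine bal_eq_zero K i _ ?_
  rw [not_lt] at hu
  exact hu.trans (height_close h σ i u)

theorem dsp_of_band (h : ON e0 e1) (K : Coef ev e0 e1) {σ : ℕ → ℝ} {y : Y} (hy : IsPar ev σ y)
    (u : E) (i : ℕ) (hi : |⟪e1, u⟫_ℝ - (1 / 2) ^ i| ≤ (1 / 2) ^ i / 4) :
    dsp K (y, u) = bal K i (u - ctr e0 e1 σ i) := by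
  rw [dsp_eq K hy]
  refine tsum_eq_single i fun j hj => ?_
  refine bal_eq_zero_of_band h K σ j u fun hlt => hj ?_
  refine band (hlt.le.trans ?_) hi
  unfold rad
  have : (0 : ℝ) < (1 / 2) ^ j := by positivity
  linarith

theorem dsp_of_no_band (h : ON e0 e1) (K : Coef ev e0 e1) {σ : ℕ → ℝ} {y : Y}
    (hy : IsPar ev σ y) (u : E) (hi : ∀ i, ¬ |⟪e1, u⟫_ℝ - (1 / 2) ^ i| < rad i) :
    dsp K (y, u) = 0 := by
  rw [dsp_eq K hy]
  have : (fun i => bal K i (u - ctr e0 e1 σ i)) = fun _ => 0 := by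
    funext i
    exact bal_eq_zero_of_band h K σ i u (hi i)
  rw [this, tsum_zero]

theorem dsp_nonneg (K : Coef ev e0 e1) {σ : ℕ → ℝ} {y : Y} (hy : IsPar ev σ y) (u : E) :
    0 ≤ dsp K (y, u) := by
  rw [dsp_eq K hy]
  exact tsum_nonneg fun i => bal_nonneg K i _

theorem dsp_le (K : Coef ev e0 e1) (z : Y × E) : |dsp K z| ≤ 1 / 4 := by
  have h2 : HasSum (fun i : ℕ => (1 / 2 : ℝ) ^ (i + 3)) (1 / 4 : ℝ) := by
    have h : HasSum (fun i : ℕ => 1 / 8 * (1 / 2 : ℝ) ^ i) (1 / 8 * 2 : ℝ) :=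
      hasSum_geometric_two.mul_left (1 / 8)
    have e : (fun i : ℕ => (1 / 2 : ℝ) ^ (i + 3)) = fun i : ℕ => 1 / 8 * (1 / 2 : ℝ) ^ i := by
      funext i; rw [pow_add]; norm_num [mul_comm]
    rw [e]
    have e2 : (1 / 8 * 2 : ℝ) = 1 / 4 := by norm_num
    rw [e2] at h
    exact h
  have h3 : ∀ i, ‖K.d i * trm ev e0 e1 i z‖ ≤ (1 / 2) ^ (i + 3) := fun i => dsp_term_le K i z
  exact tsum_of_norm_bounded h2 h3

/-- the support of the displacement -/
theorem dsp_ne_zero_iff (h : ON e0 e1) (K : Coef ev e0 e1) {σ : ℕ → ℝ} {y : Y}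
    (hy : IsPar ev σ y) (u : E) :
    dsp K (y, u) ≠ 0 ↔ ∃ i, u ∈ Metric.ball (ctr e0 e1 σ i) (rad i) ∧
      ∀ j < i + 1, u ≠ spt e0 e1 σ i j := by
  constructor
  · intro hne
    by_cases hb : ∀ i, ¬ |⟪e1, u⟫_ℝ - (1 / 2) ^ i| < rad i
    · exact absurd (dsp_of_no_band h K hy u hb) hne
    · push Not at hb
      obtain ⟨i, hi⟩ := hb
      have h1 : |⟪e1, u⟫_ℝ - (1 / 2) ^ i| ≤ (1 / 2) ^ i / 4 := by
        unfold rad at hi
        have : (0 : ℝ) < (1 / 2) ^ i := by positivity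
        linarith
      rw [dsp_of_band h K hy u i h1] at hne
      exact ⟨i, (bal_ne_zero_iff K σ i u).1 hne⟩
  · rintro ⟨i, hi⟩
    have h1 : |⟪e1, u⟫_ℝ - (1 / 2) ^ i| ≤ (1 / 2) ^ i / 4 := by
      refine (height_close h σ i u).trans ?_
      have h2 := hi.1
      rw [Metric.mem_ball, dist_eq_norm] at h2
      unfold rad at h2
      have : (0 : ℝ) < (1 / 2) ^ i := by positivity
      linarith
    rw [dsp_of_band h K hy u i h1]
    exact (bal_ne_zero_iff K σ i u).2 hi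

theorem norm_ctr (h : ON e0 e1) {σ : ℕ → ℝ} (hσ : ∀ i, 0 ≤ σ i ∧ σ i ≤ 1) (i : ℕ) :
    ‖ctr e0 e1 σ i‖ ≤ 2 := by
  unfold ctr
  refine (norm_add_le _ _).trans ?_
  rw [norm_smul, norm_smul, h.n0, h.n1, mul_one, mul_one, Real.norm_of_nonneg (hσ i).1,
    Real.norm_of_nonneg (by positivity)]
  have h1 : ((1 : ℝ) / 2) ^ i ≤ 1 := pow_le_one₀ (by norm_num) (by norm_num)
  linarith [(hσ i).2]

theorem rad_le (i : ℕ) : rad i ≤ 1 / 8 := by
  unfold rad
  have h1 : ((1 : ℝ) / 2) ^ i ≤ 1 := pow_le_one₀ (by norm_num) (by norm_num)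
  linarith

theorem norm_of_ball (h : ON e0 e1) {σ : ℕ → ℝ} (hσ : ∀ i, 0 ≤ σ i ∧ σ i ≤ 1) {i : ℕ} {u : E}
    (hu : u ∈ Metric.ball (ctr e0 e1 σ i) (rad i)) : ‖u‖ < 3 := by
  rw [Metric.mem_ball, dist_eq_norm] at hu
  have h1 := norm_ctr h hσ i
  have h2 := rad_le i
  have h3 : ‖u‖ ≤ ‖u - ctr e0 e1 σ i‖ + ‖ctr e0 e1 σ i‖ := by
    have := norm_add_le (u - ctr e0 e1 σ i) (ctr e0 e1 σ i)
    rwa [sub_add_cancel] at this
  linarith

theorem dsp_zero_of_norm (h : ON e0 e1) (K : Coef ev e0 e1) {σ : ℕ → ℝ}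
    (hσ : ∀ i, 0 ≤ σ i ∧ σ i ≤ 1) {y : Y} (hy : IsPar ev σ y) (u : E) (hu : 3 ≤ ‖u‖) :
    dsp K (y, u) = 0 := by
  by_contra hne
  obtain ⟨i, hi, -⟩ := (dsp_ne_zero_iff h K hy u).1 hne
  exact absurd (norm_of_ball h hσ hi) (not_lt.2 hu)

/-! ### the conjugating maps -/

/-- cut-off function -/
noncomputable def kap (u : E) : ℝ := max 0 (min 1 (2 - ‖u‖ / 4))

theorem kap_one {u : E} (h : ‖u‖ ≤ 4) : kap u = 1 := by
  unfold kap
  rw [min_eq_left (by linarith), max_eq_right (by norm_num)]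

theorem kap_zero {u : E} (h : 8 ≤ ‖u‖) : kap u = 0 := by
  unfold kap
  rw [min_eq_right (by linarith), max_eq_left (by linarith)]

theorem kap_nonneg (u : E) : 0 ≤ kap u := le_max_left _ _

theorem kap_le (u : E) : kap u ≤ 1 := max_le zero_le_one (min_le_left _ _)

theorem kap_lip (u v : E) : |kap u - kap v| ≤ ‖u - v‖ / 4 := by
  unfold kap
  refine (abs_max_sub_max_le_max _ _ _ _).trans ?_
  rw [sub_self, abs_zero]
  refine max_le (by positivity) ((abs_min_sub_min_le_max _ _ _ _).trans ?_)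
  rw [sub_self, abs_zero]
  refine max_le (by positivity) ?_
  have h1 := abs_norm_sub_norm_le v u
  have h2 : (2 - ‖u‖ / 4 - (2 - ‖v‖ / 4)) = (‖v‖ - ‖u‖) / 4 := by ring
  rw [h2, abs_div, norm_sub_rev u v]
  have h3 : |(4 : ℝ)| = 4 := by norm_num
  rw [h3]
  linarith

theorem kap_continuous : Continuous (kap : E → ℝ) := by
  unfold kap
  fun_prop

/-- bump in the height -/
noncomputable def tau (i : ℕ) (t : ℝ) : ℝ := max 0 (min 1 (2 - 8 * 2 ^ i * |t - (1 / 2) ^ i|))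

theorem tau_continuous (i : ℕ) : Continuous (tau i) := by
  unfold tau
  fun_prop

theorem tau_nonneg (i : ℕ) (t : ℝ) : 0 ≤ tau i t := le_max_left _ _

theorem tau_le (i : ℕ) (t : ℝ) : tau i t ≤ 1 := max_le zero_le_one (min_le_left _ _)

theorem tau_one {i : ℕ} {t : ℝ} (h : |t - (1 / 2) ^ i| ≤ rad i) : tau i t = 1 := by
  unfold tau
  have hp : (0 : ℝ) < 8 * 2 ^ i := by positivity
  have h1 : 8 * 2 ^ i * |t - (1 / 2) ^ i| ≤ 1 :=
    (mul_le_mul_of_nonneg_left h hp.le).trans (half_two i).le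
  rw [min_eq_left (by linarith), max_eq_right (by norm_num)]

theorem tau_zero {i : ℕ} {t : ℝ} (h : ¬ |t - (1 / 2) ^ i| ≤ (1 / 2) ^ i / 4) : tau i t = 0 := by
  unfold tau
  have hp : (0 : ℝ) < 8 * 2 ^ i := by positivity
  have h1 : 2 ≤ 8 * 2 ^ i * |t - (1 / 2) ^ i| := by
    have h2 : (8 * 2 ^ i : ℝ) * ((1 / 2) ^ i / 4) = 2 := by
      have := half_two i
      unfold rad at this
      linarith
    rw [not_le] at h
    exact h2.symm.le.trans (mul_le_mul_of_nonneg_left h.le hp.le)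
  rw [min_eq_right (by linarith), max_eq_left (by linarith)]

/-- the shift at the height `t` -/
noncomputable def sft (a : ℕ → ℝ) (t : ℝ) : ℝ := ∑' i, a i * tau i t

theorem sft_continuous {a : ℕ → ℝ} (ha : Summable (fun i => |a i|)) : Continuous (sft a) := by
  unfold sft
  refine continuous_tsum (fun i => continuous_const.mul (tau_continuous i)) ha fun i t => ?_
  rw [Real.norm_eq_abs, abs_mul, abs_of_nonneg (tau_nonneg i t)]
  exact mul_le_of_le_one_right (abs_nonneg _) (tau_le i t)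

theorem sft_band {a : ℕ → ℝ} {i : ℕ} {t : ℝ} (h : |t - (1 / 2) ^ i| ≤ (1 / 2) ^ i / 4) :
    sft a t = a i * tau i t := by
  unfold sft
  refine tsum_eq_single i fun j hj => ?_
  rw [tau_zero, mul_zero]
  exact fun hh => hj (band hh h)

theorem sft_le {a : ℕ → ℝ} (ha : ∀ i, |a i| ≤ 1) (t : ℝ) : |sft a t| ≤ 1 := by
  by_cases h : ∃ i, |t - (1 / 2) ^ i| ≤ (1 / 2) ^ i / 4
  · obtain ⟨i, hi⟩ := h
    rw [sft_band hi, abs_mul, abs_of_nonneg (tau_nonneg i t)]
    exact (mul_le_of_le_one_right (abs_nonneg _) (tau_le i t)).trans (ha i)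
  · push Not at h
    have : sft a t = 0 := by
      unfold sft
      have : (fun i => a i * tau i t) = fun _ => 0 := by
        funext i
        rw [tau_zero (not_le.2 (h i)), mul_zero]
      rw [this, tsum_zero]
    rw [this, abs_zero]
    exact zero_le_one

theorem sft_one {a : ℕ → ℝ} {i : ℕ} {t : ℝ} (h : |t - (1 / 2) ^ i| ≤ rad i) : sft a t = a i := by
  have h1 : |t - (1 / 2) ^ i| ≤ (1 / 2) ^ i / 4 := by
    unfold rad at h
    have : (0 : ℝ) < (1 / 2) ^ i := by positivity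
    linarith
  rw [sft_band h1, tau_one h, mul_one]

/-- the shift function of the conjugating map -/
noncomputable def cjf (e1 : E) (a : ℕ → ℝ) (u : E) : ℝ := kap u * sft a ⟪e1, u⟫_ℝ

theorem cjf_continuous {a : ℕ → ℝ} (ha : Summable (fun i => |a i|)) : Continuous (cjf e1 a) :=
  kap_continuous.mul ((sft_continuous ha).comp (continuous_const.inner continuous_id))

theorem inner_add_e0 (h : ON e0 e1) (u : E) (s : ℝ) : ⟪e1, u + s • e0⟫_ℝ = ⟪e1, u⟫_ℝ := by
  rw [inner_add_right, inner_smul_right, h.o, mul_zero, add_zero]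

theorem cjf_halfLip (h : ON e0 e1) {a : ℕ → ℝ} (ha : ∀ i, |a i| ≤ 1) :
    HalfLip (cjf e1 a) e0 := by
  intro u s
  unfold cjf
  rw [inner_add_e0 h, ← sub_mul, abs_mul]
  have h1 := kap_lip (u + s • e0) u
  rw [add_sub_cancel_left, norm_smul, h.n0, mul_one, Real.norm_eq_abs] at h1
  have h2 := sft_le ha ⟪e1, u⟫_ℝ
  have h3 := abs_nonneg (kap (u + s • e0) - kap u)
  have h4 := abs_nonneg s
  nlinarith

theorem cjf_zero {a : ℕ → ℝ} {u : E} (hu : 8 ≤ ‖u‖) : cjf e1 a u = 0 := by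
  unfold cjf
  rw [kap_zero hu, zero_mul]

/-- the conjugacy in the model -/
theorem conj_model (h : ON e0 e1) (K : Coef ev e0 e1) {σ σ' : ℕ → ℝ}
    (hσ : ∀ i, 0 ≤ σ i ∧ σ i ≤ 1) (hσ' : ∀ i, 0 ≤ σ' i ∧ σ' i ≤ 1) {y y' : Y}
    (hy : IsPar ev σ y) (hy' : IsPar ev σ' y') (u : E) :
    shear (cjf e1 (fun i => σ' i - σ i)) e0 (shear (fun v => dsp K (y, v)) e0 u) =
      shear (fun v => dsp K (y', v)) e0 (shear (cjf e1 (fun i => σ' i - σ i)) e0 u) := by
  have ha : ∀ i, |σ' i - σ i| ≤ 1 := by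
    intro i
    rw [abs_le]
    constructor <;> linarith [(hσ i).1, (hσ i).2, (hσ' i).1, (hσ' i).2]
  set a : ℕ → ℝ := fun i => σ' i - σ i with haa
  have hI1 : ⟪e1, shear (cjf e1 a) e0 u⟫_ℝ = ⟪e1, u⟫_ℝ := inner_add_e0 h _ _
  by_cases hb : ∀ i, ¬ |⟪e1, u⟫_ℝ - (1 / 2) ^ i| < rad i
  · have h1 : dsp K (y, u) = 0 := dsp_of_no_band h K hy u hb
    have h2 : dsp K (y', shear (cjf e1 a) e0 u) = 0 := by
      refine dsp_of_no_band h K hy' _ ?_
      rw [hI1]
      exact hb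
    have e1' : shear (fun v => dsp K (y, v)) e0 u = u := by
      show u + dsp K (y, u) • e0 = u
      rw [h1, zero_smul, add_zero]
    have e2' : shear (fun v => dsp K (y', v)) e0 (shear (cjf e1 a) e0 u) =
        shear (cjf e1 a) e0 u := by
      show shear (cjf e1 a) e0 u + dsp K (y', shear (cjf e1 a) e0 u) • e0 = _
      rw [h2, zero_smul, add_zero]
    rw [e1', e2']
  · push Not at hb
    obtain ⟨i, hi⟩ := hb
    have h1 : |⟪e1, u⟫_ℝ - (1 / 2) ^ i| ≤ (1 / 2) ^ i / 4 := by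
      unfold rad at hi
      have : (0 : ℝ) < (1 / 2) ^ i := by positivity
      linarith
    have hs : sft a ⟪e1, u⟫_ℝ = a i := sft_one hi.le
    have hc : ctr e0 e1 σ' i = ctr e0 e1 σ i + a i • e0 := by
      unfold ctr
      rw [haa]
      module
    by_cases hu : ‖u‖ ≤ 4
    · have hk : cjf e1 a u = a i := by
        unfold cjf
        rw [kap_one hu, hs, one_mul]
      have hg' : dsp K (y', shear (cjf e1 a) e0 u) = dsp K (y, u) := by
        rw [dsp_of_band h K hy u i h1, dsp_of_band h K hy' _ i (by rw [hI1]; exact h1)]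
        congr 1
        show u + cjf e1 a u • e0 - ctr e0 e1 σ' i = u - ctr e0 e1 σ i
        rw [hk, hc]
        abel
      show (u + dsp K (y, u) • e0) + cjf e1 a (u + dsp K (y, u) • e0) • e0 =
        (u + cjf e1 a u • e0) + dsp K (y', shear (cjf e1 a) e0 u) • e0
      rw [hg', hk]
      by_cases hz : dsp K (y, u) = 0
      · rw [hz, zero_smul, add_zero, add_zero, hk]
      · obtain ⟨k, hk1, -⟩ := (dsp_ne_zero_iff h K hy u).1 hz
        have h3 := norm_of_ball h hσ hk1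
        have h4 : ‖u + dsp K (y, u) • e0‖ ≤ 4 := by
          refine (norm_add_le _ _).trans ?_
          rw [norm_smul, h.n0, mul_one, Real.norm_eq_abs]
          have := dsp_le K (y, u)
          linarith
        have h5 : cjf e1 a (u + dsp K (y, u) • e0) = a i := by
          unfold cjf
          rw [kap_one h4, inner_add_e0 h, hs, one_mul]
        rw [h5]
        abel
    · push Not at hu
      have h2 : dsp K (y, u) = 0 := dsp_zero_of_norm h K hσ hy u (by linarith)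
      have h3 : dsp K (y', shear (cjf e1 a) e0 u) = 0 := by
        refine dsp_zero_of_norm h K hσ' hy' _ ?_
        have h4 : |cjf e1 a u| ≤ 1 := by
          unfold cjf
          rw [abs_mul, abs_of_nonneg (kap_nonneg u)]
          have := sft_le ha ⟪e1, u⟫_ℝ
          have h5 := kap_le u
          have h6 := kap_nonneg u
          have h7 := abs_nonneg (sft a ⟪e1, u⟫_ℝ)
          nlinarith
        have h5 : ‖u‖ ≤ ‖shear (cjf e1 a) e0 u‖ + ‖cjf e1 a u • e0‖ := by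
          have := norm_sub_le (shear (cjf e1 a) e0 u) (cjf e1 a u • e0)
          have e : shear (cjf e1 a) e0 u - cjf e1 a u • e0 = u := by
            unfold shear; abel
          rwa [e] at this
        rw [norm_smul, h.n0, mul_one, Real.norm_eq_abs] at h5
        linarith
      show shear (cjf e1 a) e0 (u + dsp K (y, u) • e0) =
        shear (cjf e1 a) e0 u + dsp K (y', shear (cjf e1 a) e0 u) • e0
      rw [h2, h3, zero_smul, add_zero, add_zero]

end Pool.Agent.W2helper9.TC
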