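import Pool.Agent.W2helper9.TC.Tr

/-!
# Recovering the balls from the topological conjugacy class
-/

set_option autoImplicit false
set_option linter.unusedSectionVars false

open Set Filter Topology
open scoped ContDiff InnerProductSpace Manifold

namespace Pool.Agent.W2helper9.TC

section general

variable {M : Type*} [TopologicalSpace M]

/-- isolated fixed points -/
def IsoFix (f : M → M) : Set M :=
  {p | f p = p ∧ ∃ U, IsOpen U ∧ p ∈ U ∧ ∀ q ∈ U, f q = q → q = p}

/-- the moved points and the isolated fixed points -/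
def Op (f : M → M) : Set M := {p | f p ≠ p ∨ p ∈ IsoFix f}

theorem fix_iff {f f' : M → M} (h : M ≃ₜ M) (hc : ∀ p, h (f p) = f' (h p)) (p : M) :
    f p = p ↔ f' (h p) = h p := by
  rw [← hc, h.injective.eq_iff]

theorem iso_of {f f' : M → M} (h : M ≃ₜ M) (hc : ∀ p, h (f p) = f' (h p)) {p : M}
    (hp : p ∈ IsoFix f) : h p ∈ IsoFix f' := by
  obtain ⟨h1, U, hU, hpU, h2⟩ := hp
  refine ⟨(fix_iff h hc p).1 h1, h '' U, h.isOpenMap U hU, mem_image_of_mem h hpU, ?_⟩
  rintro _ ⟨q, hq, rfl⟩ hfq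
  rw [h2 q hq ((fix_iff h hc q).2 hfq)]

theorem iso_iff {f f' : M → M} (h : M ≃ₜ M) (hc : ∀ p, h (f p) = f' (h p)) (p : M) :
    p ∈ IsoFix f ↔ h p ∈ IsoFix f' := by
  refine ⟨iso_of h hc, fun hp => ?_⟩
  have hc' : ∀ p, h.symm (f' p) = f (h.symm p) := by
    intro p
    rw [Homeomorph.symm_apply_eq, hc, h.apply_symm_apply]
  have := iso_of h.symm hc' hp
  rwa [h.symm_apply_apply] at this

theorem op_iff {f f' : M → M} (h : M ≃ₜ M) (hc : ∀ p, h (f p) = f' (h p)) (p : M) :
    p ∈ Op f ↔ h p ∈ Op f' :=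
  or_congr (not_congr (fix_iff h hc p)) (iso_iff h hc p)

theorem image_iso {f f' : M → M} (h : M ≃ₜ M) (hc : ∀ p, h (f p) = f' (h p)) :
    h '' IsoFix f = IsoFix f' := by
  ext q
  constructor
  · rintro ⟨p, hp, rfl⟩
    exact (iso_iff h hc p).1 hp
  · intro hq
    exact ⟨h.symm q, (iso_iff h hc _).2 (by rwa [h.apply_symm_apply]), h.apply_symm_apply q⟩

theorem image_op {f f' : M → M} (h : M ≃ₜ M) (hc : ∀ p, h (f p) = f' (h p)) :
    h '' Op f = Op f' := by
  ext q
  constructor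
  · rintro ⟨p, hp, rfl⟩
    exact (op_iff h hc p).1 hp
  · intro hq
    exact ⟨h.symm q, (op_iff h hc _).2 (by rwa [h.apply_symm_apply]), h.apply_symm_apply q⟩

end general

variable {E : Type*} [NormedAddCommGroup E] [InnerProductSpace ℝ E] [FiniteDimensional ℝ E]
variable {Y : Type*} [NormedAddCommGroup Y] [NormedSpace ℝ Y]
variable {ev : ℕ → Y →L[ℝ] ℝ} {e0 e1 : E}
variable {M : Type*} [TopologicalSpace M] {χ : OpenPartialHomeomorph M E}

/-- no point of a manifold of positive dimension is isolated -/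
theorem exists_ne_of_open [ChartedSpace E M] (h0 : e0 ≠ 0) (p : M) (U : Set M) (hU : IsOpen U)
    (hp : p ∈ U) : ∃ q ∈ U, q ≠ p := by
  set φ := chartAt E p
  have hps : p ∈ φ.source := mem_chart_source E p
  have h1 : Tendsto (fun t : ℝ => φ p + t • e0) (𝓝[≠] 0) (𝓝 (φ p)) := by
    have : Continuous (fun t : ℝ => φ p + t • e0) := by fun_prop
    have h := this.tendsto 0
    rw [zero_smul, add_zero] at h
    exact h.mono_left nhdsWithin_le_nhds
  have h2 : Tendsto (fun t : ℝ => φ.symm (φ p + t • e0)) (𝓝[≠] 0) (𝓝 p) := by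
    have := (φ.symm.continuousAt (φ.map_source hps)).tendsto
    rw [φ.left_inv hps] at this
    exact this.comp h1
  have h3 := h2.eventually (hU.mem_nhds hp)
  have h4 := h1.eventually (φ.open_target.mem_nhds (φ.map_source hps))
  obtain ⟨t, ⟨ht1, ht2⟩, ht3⟩ := ((h3.and h4).and self_mem_nhdsWithin).exists
  refine ⟨_, ht1, fun heq => ?_⟩
  have h5 := congrArg φ heq
  rw [φ.right_inv ht2, add_eq_left, smul_eq_zero] at h5
  rcases h5 with h5 | h5
  · exact ht3 h5
  · exact h0 h5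

theorem ON.ne (h : ON e0 e1) : e0 ≠ 0 := by
  intro h0
  have := h.n0
  rw [h0, norm_zero] at this
  exact zero_ne_one this

/-- the model diffeomorphism -/
noncomputable def mdl (K : Coef ev e0 e1) (y : Y) (u : E) : E :=
  shear (fun v => dsp K (y, v)) e0 u

theorem mdl_fixed (h : ON e0 e1) (K : Coef ev e0 e1) (y : Y) (u : E) :
    mdl K y u = u ↔ dsp K (y, u) = 0 := by
  unfold mdl shear
  rw [add_eq_left, smul_eq_zero]
  exact ⟨fun hh => hh.resolve_right h.ne, fun hh => Or.inl hh⟩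

theorem mdl_sup (h : ON e0 e1) (K : Coef ev e0 e1) {σ : ℕ → ℝ}
    (hσ : ∀ i, 0 ≤ σ i ∧ σ i ≤ 1) {y : Y} (hy : IsPar ev σ y) : Sup (mdl K y) :=
  Sup.of_injective (shear_injective (dsp_halfLip K h.n0 y)) fun u hu =>
    (mdl_fixed h K y u).2 (dsp_zero_of_norm h K hσ hy u (by linarith))

/-- the balls in the manifold -/
def BB (χ : OpenPartialHomeomorph M E) (e0 e1 : E) (σ : ℕ → ℝ) (i : ℕ) : Set M :=
  χ.symm '' Metric.ball (ctr e0 e1 σ i) (rad i)

theorem spt_mem_ball (h : ON e0 e1) (σ : ℕ → ℝ) (i j : ℕ) (hj : j < i + 1) :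
    spt e0 e1 σ i j ∈ Metric.ball (ctr e0 e1 σ i) (rad i) := by
  unfold spt
  rw [Metric.mem_ball, dist_eq_norm, add_sub_cancel_left, norm_smul, h.n0, mul_one,
    Real.norm_of_nonneg (mul_nonneg (by positivity) (rad_pos i).le)]
  have h1 : (j : ℝ) / (i + 2) < 1 := by
    rw [div_lt_one (by positivity)]
    have : (j : ℝ) < (i : ℝ) + 1 := by exact_mod_cast hj
    linarith
  exact mul_lt_of_lt_one_left (rad_pos i) h1

section

variable (h : ON e0 e1) (K : Coef ev e0 e1) {σ : ℕ → ℝ} (hσ : ∀ i, 0 ≤ σ i ∧ σ i ≤ 1) {y : Y}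
  (hy : IsPar ev σ y) (hχ : Metric.closedBall (0 : E) 8 ⊆ χ.target)

include h hσ hχ

theorem ball_target (i : ℕ) : Metric.ball (ctr e0 e1 σ i) (rad i) ⊆ χ.target :=
  fun u hu => mem_target hχ (by linarith [norm_of_ball h hσ hu])

theorem isOpen_BB (i : ℕ) : IsOpen (BB χ e0 e1 σ i) :=
  χ.isOpen_image_symm_of_subset_target Metric.isOpen_ball (ball_target h hσ hχ i)

theorem isPreconnected_BB (i : ℕ) : IsPreconnected (BB χ e0 e1 σ i) :=
  ((convex_ball _ _).isPreconnected).image _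
    (χ.symm.continuousOn.mono (ball_target h hσ hχ i))

theorem disjoint_BB {i j : ℕ} {p : M} (hi : p ∈ BB χ e0 e1 σ i) (hj : p ∈ BB χ e0 e1 σ j) :
    i = j := by
  obtain ⟨u, hu, rfl⟩ := hi
  obtain ⟨v, hv, hvu⟩ := hj
  have he : v = u := χ.symm.injOn (ball_target h hσ hχ j hv) (ball_target h hσ hχ i hu) hvu
  subst he
  rw [Metric.mem_ball, dist_eq_norm] at hu hv
  have h1 := (height_close h σ i v).trans hu.le
  have h2 := (height_close h σ j v).trans hv.le
  unfold rad at h1 h2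
  have h3 : (0 : ℝ) < (1 / 2) ^ i := by positivity
  have h4 : (0 : ℝ) < (1 / 2) ^ j := by positivity
  exact band (t := ⟪e1, v⟫_ℝ) (by linarith) (by linarith)

omit hσ hχ in
/-- one of the two half-lines from a point outside of the balls avoids the balls -/
theorem halfline {u : E} (hu : ∀ i, u ∉ Metric.ball (ctr e0 e1 σ i) (rad i)) :
    ∃ c : ℝ, (c = 1 ∨ c = -1) ∧ ∀ t : ℝ, 0 < t → ∀ i,
      u + (c * t) • e0 ∉ Metric.ball (ctr e0 e1 σ i) (rad i) := by
  by_contra hcon
  push Not at hcon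
  obtain ⟨t, ht, i, hi⟩ := hcon 1 (Or.inl rfl)
  obtain ⟨s, hs, j, hj⟩ := hcon (-1) (Or.inr rfl)
  have hij : i = j := by
    rw [Metric.mem_ball, dist_eq_norm] at hi hj
    have h1 := (height_close h σ i _).trans hi.le
    have h2 := (height_close h σ j _).trans hj.le
    rw [inner_add_e0 h] at h1 h2
    unfold rad at h1 h2
    have h3 : (0 : ℝ) < (1 / 2) ^ i := by positivity
    have h4 : (0 : ℝ) < (1 / 2) ^ j := by positivity
    exact band (t := ⟪e1, u⟫_ℝ) (by linarith) (by linarith)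
  subst hij
  apply hu i
  have hconv := convex_ball (ctr e0 e1 σ i) (rad i)
  have hts : 0 < t + s := by linarith
  have h5 := hconv hi hj (a := s / (t + s)) (b := t / (t + s)) (by positivity) (by positivity)
    (by field_simp; ring)
  have h6 : (s / (t + s)) • (u + (1 * t) • e0) + (t / (t + s)) • (u + (-1 * s) • e0) = u := by
    have : (s / (t + s)) • (u + (1 * t) • e0) + (t / (t + s)) • (u + (-1 * s) • e0) =
        (s / (t + s) + t / (t + s)) • u + (s / (t + s) * t - t / (t + s) * s) • e0 := by module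
    rw [this]
    have e1' : s / (t + s) + t / (t + s) = 1 := by field_simp; ring
    have e2' : s / (t + s) * t - t / (t + s) * s = 0 := by ring
    rw [e1', e2', one_smul, zero_smul, add_zero]
  rwa [h6] at h5

include hy

omit hσ hχ in
theorem dsp_zero_of_notin {u : E} (hu : ∀ i, u ∉ Metric.ball (ctr e0 e1 σ i) (rad i)) :
    dsp K (y, u) = 0 := by
  by_contra hne
  obtain ⟨i, hi, -⟩ := (dsp_ne_zero_iff h K hy u).1 hne
  exact hu i hi

theorem isoFix_spt [T2Space M] (i j : ℕ) (hj : j < i + 1) :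
    χ.symm (spt e0 e1 σ i j) ∈ IsoFix (tr χ (mdl K y)) := by
  have hsup := mdl_sup h K hσ hy
  have hm := spt_mem_ball h σ i j hj
  have hz : dsp K (y, spt e0 e1 σ i j) = 0 := by
    by_contra hne
    obtain ⟨k, hk, hk2⟩ := (dsp_ne_zero_iff h K hy _).1 hne
    have hik : k = i := by
      have h1 := mem_image_of_mem χ.symm hk
      have h2 := mem_image_of_mem χ.symm hm
      exact disjoint_BB h hσ hχ h1 h2
    subst hik
    exact hk2 j hj rfl
  refine ⟨(tr_symm_fixed hχ hsup (ball_target h hσ hχ i hm)).2 ((mdl_fixed h K y _).2 hz), ?_⟩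
  set S : Set E := {v | ∃ j' < i + 1, v = spt e0 e1 σ i j'} \ {spt e0 e1 σ i j} with hS
  have hfin : S.Finite := by
    refine Set.Finite.subset ((Finset.range (i + 1)).finite_toSet.image
      (fun j' => spt e0 e1 σ i j')) ?_
    rintro v ⟨⟨j', hj', rfl⟩, -⟩
    exact ⟨j', by simpa using hj', rfl⟩
  have hopen : IsOpen (Metric.ball (ctr e0 e1 σ i) (rad i) \ S) :=
    Metric.isOpen_ball.sdiff hfin.isClosed
  refine ⟨χ.symm '' (Metric.ball (ctr e0 e1 σ i) (rad i) \ S),
    χ.isOpen_image_symm_of_subset_target hopen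
      (diff_subset.trans (ball_target h hσ hχ i)), mem_image_of_mem _ ⟨hm, ?_⟩, ?_⟩
  · rintro ⟨-, hh⟩
    exact hh rfl
  · rintro _ ⟨v, ⟨hv1, hv2⟩, rfl⟩ hfix
    have h1 := (mdl_fixed h K y v).1
      ((tr_symm_fixed hχ hsup (ball_target h hσ hχ i hv1)).1 hfix)
    have h2 : ∃ j' < i + 1, v = spt e0 e1 σ i j' := by
      by_contra hcon
      push Not at hcon
      exact (dsp_ne_zero_iff h K hy v).2 ⟨i, hv1, hcon⟩ h1
    by_cases h3 : v = spt e0 e1 σ i j
    · rw [h3]
    · exact absurd ⟨h2, h3⟩ hv2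

theorem op_eq [T2Space M] [ChartedSpace E M] (p : M) :
    p ∈ Op (tr χ (mdl K y)) ↔ ∃ i, p ∈ BB χ e0 e1 σ i := by
  have hsup := mdl_sup h K hσ hy
  constructor
  · rintro (hp | hp)
    · by_cases hs : p ∈ χ.source
      · have h1 : mdl K y (χ p) ≠ χ p := by
          intro h2
          apply hp
          rw [tr_source hs, h2, χ.left_inv hs]
        have h2 : dsp K (y, χ p) ≠ 0 := fun h3 => h1 ((mdl_fixed h K y _).2 h3)
        obtain ⟨i, hi, -⟩ := (dsp_ne_zero_iff h K hy _).1 h2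
        exact ⟨i, χ p, hi, χ.left_inv hs⟩
      · exact absurd (tr_notin hs) hp
    · by_contra hcon
      push Not at hcon
      obtain ⟨hfix, U, hU, hpU, hiso⟩ := hp
      by_cases hs : p ∈ χ.symm '' Metric.closedBall (0 : E) 3
      · obtain ⟨u, hu, rfl⟩ := hs
        rw [mem_closedBall_zero_iff] at hu
        have hut : u ∈ χ.target := mem_target hχ (by linarith)
        have hu' : ∀ i, u ∉ Metric.ball (ctr e0 e1 σ i) (rad i) :=
          fun i hi => hcon i (mem_image_of_mem _ hi)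
        obtain ⟨c, hc, hline⟩ := halfline h hu'
        have hc0 : c ≠ 0 := by rcases hc with rfl | rfl <;> norm_num
        have h1 : Tendsto (fun t : ℝ => u + (c * t) • e0) (𝓝[>] 0) (𝓝 u) := by
          have : Continuous (fun t : ℝ => u + (c * t) • e0) := by fun_prop
          have h := this.tendsto 0
          rw [mul_zero, zero_smul, add_zero] at h
          exact h.mono_left nhdsWithin_le_nhds
        have h2 : Tendsto (fun t : ℝ => χ.symm (u + (c * t) • e0)) (𝓝[>] 0) (𝓝 (χ.symm u)) :=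
          (χ.symm.continuousAt hut).tendsto.comp h1
        have h3 := h2.eventually (hU.mem_nhds hpU)
        have h4 := h1.eventually (χ.open_target.mem_nhds hut)
        obtain ⟨t, ⟨ht1, ht2⟩, ht3⟩ := ((h3.and h4).and self_mem_nhdsWithin).exists
        have ht3' : 0 < t := ht3
        have h5 := dsp_zero_of_notin h K hy (hline t ht3')
        have h6 := hiso _ ht1 ((tr_symm_fixed hχ hsup ht2).2 ((mdl_fixed h K y _).2 h5))
        have h7 := χ.symm.injOn ht2 hut h6
        rw [add_eq_left, smul_eq_zero] at h7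
        rcases h7 with h7 | h7
        · exact (mul_ne_zero hc0 ht3'.ne') h7
        · exact h.ne h7
      · have hcl : IsClosed (χ.symm '' Metric.closedBall (0 : E) 3) := by
          refine IsCompact.isClosed ((isCompact_closedBall (0 : E) 3).image_of_continuousOn
            (χ.symm.continuousOn.mono fun u hu => ?_))
          rw [mem_closedBall_zero_iff] at hu
          exact mem_target hχ (by linarith)
        obtain ⟨q, hq, hqp⟩ := exists_ne_of_open h.ne p (U \ χ.symm '' Metric.closedBall (0 : E) 3)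
          (hU.sdiff hcl) ⟨hpU, hs⟩
        apply hqp
        refine hiso q hq.1 ?_
        by_cases hqs : q ∈ χ.source
        · have h1 : 3 ≤ ‖χ q‖ := by
            by_contra hlt
            rw [not_le] at hlt
            exact hq.2 ⟨χ q, mem_closedBall_zero_iff.2 hlt.le, χ.left_inv hqs⟩
          have h2 := (mdl_fixed h K y _).2 (dsp_zero_of_norm h K hσ hy (χ q) h1)
          rw [tr_source hqs, h2, χ.left_inv hqs]
        · exact tr_notin hqs
  · rintro ⟨i, u, hu, rfl⟩
    have hut := ball_target h hσ hχ i hu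
    by_cases hz : dsp K (y, u) = 0
    · right
      have h2 : ∃ j < i + 1, u = spt e0 e1 σ i j := by
        by_contra hcon
        push Not at hcon
        exact (dsp_ne_zero_iff h K hy u).2 ⟨i, hu, hcon⟩ hz
      obtain ⟨j, hj, rfl⟩ := h2
      exact isoFix_spt h K hσ hy hχ i j hj
    · left
      intro hh
      exact hz ((mdl_fixed h K y u).1 ((tr_symm_fixed hχ hsup hut).1 hh))

theorem comp_eq [T2Space M] [ChartedSpace E M] (i : ℕ) (p : M) (hp : p ∈ BB χ e0 e1 σ i) :
    connectedComponentIn (Op (tr χ (mdl K y))) p = BB χ e0 e1 σ i := by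
  have hsub : BB χ e0 e1 σ i ⊆ Op (tr χ (mdl K y)) := fun q hq =>
    (op_eq h K hσ hy hχ q).2 ⟨i, hq⟩
  refine Subset.antisymm ?_
    ((isPreconnected_BB h hσ hχ i).subset_connectedComponentIn hp hsub)
  have hV : IsOpen (⋃ j ∈ {j | j ≠ i}, BB χ e0 e1 σ j) :=
    isOpen_biUnion fun j _ => isOpen_BB h hσ hχ j
  refine isPreconnected_connectedComponentIn.subset_left_of_subset_union
    (isOpen_BB h hσ hχ i) hV ?_ ?_ ⟨p, mem_connectedComponentIn (hsub hp), hp⟩
  · rw [Set.disjoint_left]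
    intro q hq hq'
    simp only [mem_iUnion, exists_prop] at hq'
    obtain ⟨j, hj, hqj⟩ := hq'
    exact hj (disjoint_BB h hσ hχ hqj hq)
  · intro q hq
    obtain ⟨j, hj⟩ := (op_eq h K hσ hy hχ q).1 (connectedComponentIn_subset _ _ hq)
    by_cases hji : j = i
    · left; rwa [← hji]
    · right
      simp only [mem_iUnion, exists_prop]
      exact ⟨j, hji, hj⟩

theorem iso_inter [T2Space M] [ChartedSpace E M] (i : ℕ) :
    IsoFix (tr χ (mdl K y)) ∩ BB χ e0 e1 σ i =
      (fun j => χ.symm (spt e0 e1 σ i j)) '' (Set.Iio (i + 1)) := by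
  have hsup := mdl_sup h K hσ hy
  ext q
  constructor
  · rintro ⟨hq1, u, hu, rfl⟩
    have hz := (mdl_fixed h K y u).1
      ((tr_symm_fixed hχ hsup (ball_target h hσ hχ i hu)).1 hq1.1)
    have h2 : ∃ j < i + 1, u = spt e0 e1 σ i j := by
      by_contra hcon
      push Not at hcon
      exact (dsp_ne_zero_iff h K hy u).2 ⟨i, hu, hcon⟩ hz
    obtain ⟨j, hj, rfl⟩ := h2
    exact ⟨j, hj, rfl⟩
  · rintro ⟨j, hj, rfl⟩
    exact ⟨isoFix_spt h K hσ hy hχ i j hj,
      mem_image_of_mem _ (spt_mem_ball h σ i j hj)⟩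

theorem ncard_iso [T2Space M] [ChartedSpace E M] (i : ℕ) :
    (IsoFix (tr χ (mdl K y)) ∩ BB χ e0 e1 σ i).ncard = i + 1 := by
  rw [iso_inter h K hσ hy hχ i, Set.InjOn.ncard_image]
  · rw [← Nat.card_coe_set_eq, Nat.card_eq_fintype_card, Fintype.card_Iio, Nat.card_Iio]
  · intro j hj j' hj' heq
    have h1 := χ.symm.injOn (ball_target h hσ hχ i (spt_mem_ball h σ i j hj))
      (ball_target h hσ hχ i (spt_mem_ball h σ i j' hj')) heq
    unfold spt at h1
    rw [add_right_inj] at h1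
    have h2 : ((j : ℝ) / (i + 2) * rad i - (j' : ℝ) / (i + 2) * rad i) • e0 = 0 := by
      rw [sub_smul, h1, sub_self]
    rw [smul_eq_zero, or_iff_left h.ne, ← sub_mul, mul_eq_zero, or_iff_left (rad_pos i).ne',
      ← sub_div, div_eq_zero_iff, or_iff_left (by positivity), sub_eq_zero] at h2
    exact_mod_cast h2

end

/-- a topological conjugacy maps the ball with index `i` to the ball with index `i` -/
theorem conj_ball [T2Space M] [ChartedSpace E M] (h : ON e0 e1) (K : Coef ev e0 e1)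
    {σ σ' : ℕ → ℝ} (hσ : ∀ i, 0 ≤ σ i ∧ σ i ≤ 1) (hσ' : ∀ i, 0 ≤ σ' i ∧ σ' i ≤ 1) {y y' : Y}
    (hy : IsPar ev σ y) (hy' : IsPar ev σ' y') (hχ : Metric.closedBall (0 : E) 8 ⊆ χ.target)
    (g : M ≃ₜ M) (hg : ∀ p, g (tr χ (mdl K y) p) = tr χ (mdl K y') (g p)) (i : ℕ) (p : M)
    (hp : p ∈ BB χ e0 e1 σ i) : g p ∈ BB χ e0 e1 σ' i := by
  have h1 : p ∈ Op (tr χ (mdl K y)) := (op_eq h K hσ hy hχ p).2 ⟨i, hp⟩
  obtain ⟨j, hj⟩ := (op_eq h K hσ' hy' hχ (g p)).1 ((op_iff g hg p).1 h1)
  have h2 := g.image_connectedComponentIn h1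
  rw [image_op g hg, comp_eq h K hσ hy hχ i p hp, comp_eq h K hσ' hy' hχ j _ hj] at h2
  have h3 : g '' (IsoFix (tr χ (mdl K y)) ∩ BB χ e0 e1 σ i) =
      IsoFix (tr χ (mdl K y')) ∩ BB χ e0 e1 σ' j := by
    rw [image_inter g.injective, image_iso g hg, h2]
  have h4 : (i + 1 : ℕ) = j + 1 := by
    rw [← ncard_iso h K hσ hy hχ i, ← ncard_iso h K hσ' hy' hχ j, ← h3,
      Set.ncard_image_of_injective _ g.injective]
  have h5 : i = j := by omega
  rw [h5]
  exact hj

end Pool.Agent.W2helper9.TC
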