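import Pool.Agent.W2helper9.TC.Lab

/-!
# Conjugate diffeomorphisms have asymptotic parameters; the parameter map
-/

set_option autoImplicit false
set_option linter.unusedSectionVars false

open Set Filter Topology
open scoped ContDiff InnerProductSpace Manifold

namespace Pool.Agent.W2helper9.TC

variable {E : Type*} [NormedAddCommGroup E] [InnerProductSpace ℝ E] [FiniteDimensional ℝ E]
variable {Y : Type*} [NormedAddCommGroup Y] [NormedSpace ℝ Y]
variable {ev : ℕ → Y →L[ℝ] ℝ} {e0 e1 : E}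
variable {M : Type*} [TopologicalSpace M] {χ : OpenPartialHomeomorph M E}

theorem tendsto_half : Tendsto (fun i : ℕ => (1 / 2 : ℝ) ^ i) atTop (𝓝 0) :=
  tendsto_pow_atTop_nhds_zero_of_lt_one (by norm_num) (by norm_num)

theorem tendsto_ctr {F : Filter ℕ} (hF : F ≤ atTop) {σ : ℕ → ℝ} {a : ℝ}
    (ha : Tendsto σ F (𝓝 a)) : Tendsto (fun i => ctr e0 e1 σ i) F (𝓝 (a • e0)) := by
  have h1 := (ha.smul_const e0).add ((tendsto_half.mono_left hF).smul_const e1)
  rw [zero_smul, add_zero] at h1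
  exact h1

theorem tendsto_in_ball {F : Filter ℕ} (hF : F ≤ atTop) {σ : ℕ → ℝ} {a : ℝ}
    (ha : Tendsto σ F (𝓝 a)) (v : ℕ → E) (hv : ∀ i, v i ∈ Metric.ball (ctr e0 e1 σ i) (rad i)) :
    Tendsto v F (𝓝 (a • e0)) := by
  have h1 := tendsto_ctr (e0 := e0) (e1 := e1) hF ha
  have h2 : Tendsto (fun i => v i - ctr e0 e1 σ i) F (𝓝 0) := by
    have h3 : Tendsto rad F (𝓝 0) := by
      have := (tendsto_half.mono_left hF).div_const 8
      rw [zero_div] at this
      exact this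
    refine squeeze_zero_norm (fun i => ?_) h3
    have := hv i
    rw [Metric.mem_ball, dist_eq_norm] at this
    exact this.le
  have h4 := h2.add h1
  simpa using h4

theorem conj_limit [T2Space M] [ChartedSpace E M] (h : ON e0 e1) (K : Coef ev e0 e1)
    {σ σ' : ℕ → ℝ} (hσ : ∀ i, 0 ≤ σ i ∧ σ i ≤ 1) (hσ' : ∀ i, 0 ≤ σ' i ∧ σ' i ≤ 1) {y y' : Y}
    (hy : IsPar ev σ y) (hy' : IsPar ev σ' y') (hχ : Metric.closedBall (0 : E) 8 ⊆ χ.target)
    (g : M ≃ₜ M) (hg : ∀ p, g (tr χ (mdl K y) p) = tr χ (mdl K y') (g p))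
    {F : Filter ℕ} [F.NeBot] (hF : F ≤ atTop) {a b : ℝ} (ha : Tendsto σ F (𝓝 a))
    (hb : Tendsto σ' F (𝓝 b)) (ha1 : |a| ≤ 1) (hb1 : |b| ≤ 1) :
    g (χ.symm (a • e0)) = χ.symm (b • e0) := by
  have hin : ∀ {c : ℝ}, |c| ≤ 1 → c • e0 ∈ χ.target := fun {c} hc => by
    refine mem_target hχ ?_
    rw [norm_smul, h.n0, mul_one, Real.norm_eq_abs]
    linarith
  have h1 : ∀ i, χ.symm (ctr e0 e1 σ i) ∈ BB χ e0 e1 σ i := fun i =>
    mem_image_of_mem _ (Metric.mem_ball_self (rad_pos i))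
  have h2 := fun i => conj_ball h K hσ hσ' hy hy' hχ g hg i _ (h1 i)
  choose v hv hv2 using h2
  have h3 := tendsto_in_ball hF hb v hv
  have h4 : Tendsto (fun i => χ.symm (v i)) F (𝓝 (χ.symm (b • e0))) :=
    (χ.symm.continuousAt (hin hb1)).tendsto.comp h3
  have h5 : Tendsto (fun i => g (χ.symm (ctr e0 e1 σ i))) F (𝓝 (g (χ.symm (a • e0)))) :=
    g.continuous.continuousAt.tendsto.comp
      ((χ.symm.continuousAt (hin ha1)).tendsto.comp (tendsto_ctr hF ha))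
  have h6 : (fun i => χ.symm (v i)) = fun i => g (χ.symm (ctr e0 e1 σ i)) := funext hv2
  rw [h6] at h4
  exact tendsto_nhds_unique h5 h4

theorem conj_close [T2Space M] [ChartedSpace E M] (h : ON e0 e1) (K : Coef ev e0 e1)
    {σ σ' : ℕ → ℝ} (hσ : ∀ i, 0 ≤ σ i ∧ σ i ≤ 1) (hσ' : ∀ i, 0 ≤ σ' i ∧ σ' i ≤ 1) {y y' : Y}
    (hy : IsPar ev σ y) (hy' : IsPar ev σ' y') (hχ : Metric.closedBall (0 : E) 8 ⊆ χ.target)
    (hodd : ∀ a : ℝ, 0 ≤ a → a ≤ 1 → ∃ F : Filter ℕ, F.NeBot ∧ F ≤ atTop ∧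
      Tendsto σ F (𝓝 a) ∧ Tendsto σ' F (𝓝 a))
    (g : M ≃ₜ M) (hg : ∀ p, g (tr χ (mdl K y) p) = tr χ (mdl K y') (g p)) :
    Tendsto (fun i => |σ i - σ' i|) atTop (𝓝 0) := by
  by_contra hcon
  rw [Metric.tendsto_atTop] at hcon
  push Not at hcon
  obtain ⟨ε, hε, hN⟩ := hcon
  have hfr : ∃ᶠ i in atTop, ε ≤ |σ i - σ' i| := by
    rw [frequently_atTop]
    intro N
    obtain ⟨i, hi, hi2⟩ := hN N
    rw [Real.dist_eq, sub_zero, abs_abs] at hi2
    exact ⟨i, hi, hi2⟩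
  set G : Filter ℕ := atTop ⊓ 𝓟 {i | ε ≤ |σ i - σ' i|} with hG
  have hGne : G.NeBot := frequently_iff_neBot.1 hfr
  set F : Ultrafilter ℕ := Ultrafilter.of G with hFdef
  have hFG : (F : Filter ℕ) ≤ G := Ultrafilter.of_le G
  have hF : (F : Filter ℕ) ≤ atTop := hFG.trans inf_le_left
  have hFe : ∀ᶠ i in (F : Filter ℕ), ε ≤ |σ i - σ' i| := hFG.trans inf_le_right (mem_principal_self _)
  have key : ∀ τ : ℕ → ℝ, (∀ i, 0 ≤ τ i ∧ τ i ≤ 1) → ∃ a : ℝ, 0 ≤ a ∧ a ≤ 1 ∧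
      Tendsto τ (F : Filter ℕ) (𝓝 a) := by
    intro τ hτ
    have h1 : ((F.map τ : Ultrafilter ℝ) : Filter ℝ) ≤ 𝓟 (Set.Icc (0 : ℝ) 1) := by
      rw [le_principal_iff]
      have h0 : {i : ℕ | τ i ∈ Set.Icc (0 : ℝ) 1} ∈ (F : Filter ℕ) :=
        Filter.univ_mem' fun i => hτ i
      exact h0
    obtain ⟨a, ha, hle⟩ := isCompact_Icc.ultrafilter_le_nhds _ h1
    exact ⟨a, ha.1, ha.2, hle⟩
  obtain ⟨a, ha0, ha1, ha⟩ := key σ hσ
  obtain ⟨b, hb0, hb1, hb⟩ := key σ' hσ'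
  have hab : ε ≤ |a - b| := ge_of_tendsto ((ha.sub hb).abs) hFe
  have haa : |a| ≤ 1 := by rw [abs_of_nonneg ha0]; exact ha1
  have hbb : |b| ≤ 1 := by rw [abs_of_nonneg hb0]; exact hb1
  have h1 := conj_limit h K hσ hσ' hy hy' hχ g hg hF ha hb haa hbb
  obtain ⟨F', hF'ne, hF', h2, h3⟩ := hodd a ha0 ha1
  have h4 := conj_limit h K hσ hσ' hy hy' hχ g hg hF' h2 h3 haa haa
  rw [h4] at h1
  have hin : ∀ {c : ℝ}, |c| ≤ 1 → c • e0 ∈ χ.target := fun {c} hc => by
    refine mem_target hχ ?_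
    rw [norm_smul, h.n0, mul_one, Real.norm_eq_abs]
    linarith
  have h5 := χ.symm.injOn (hin haa) (hin hbb) h1
  have h6 : a = b := by
    have h7 : (a - b) • e0 = 0 := by rw [sub_smul, h5, sub_self]
    rw [smul_eq_zero, or_iff_left h.ne, sub_eq_zero] at h7
    exact h7
  rw [h6, sub_self, abs_zero] at hab
  linarith

/-- the conjugacy in the manifold -/
theorem conj_exists [T2Space M] (h : ON e0 e1) (K : Coef ev e0 e1)
    {σ σ' : ℕ → ℝ} (hσ : ∀ i, 0 ≤ σ i ∧ σ i ≤ 1) (hσ' : ∀ i, 0 ≤ σ' i ∧ σ' i ≤ 1) {y y' : Y}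
    (hy : IsPar ev σ y) (hy' : IsPar ev σ' y') (hχ : Metric.closedBall (0 : E) 8 ⊆ χ.target)
    (hs : Summable (fun i => |σ' i - σ i|)) :
    ∃ g : M ≃ₜ M, ∀ p, g (tr χ (mdl K y) p) = tr χ (mdl K y') (g p) := by
  have ha : ∀ i, |σ' i - σ i| ≤ 1 := by
    intro i
    rw [abs_le]
    constructor <;> linarith [(hσ i).1, (hσ i).2, (hσ' i).1, (hσ' i).2]
  set a : ℕ → ℝ := fun i => σ' i - σ i with haa
  have hL : HalfLip (cjf e1 a) e0 := cjf_halfLip h ha
  have hsup : Sup (shear (cjf e1 a) e0) := by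
    refine Sup.of_injective (shear_injective hL) fun u hu => ?_
    unfold shear
    rw [cjf_zero hu, zero_smul, add_zero]
  refine ⟨trHomeo hχ (shearHomeo (cjf e1 a) e0 hL (cjf_continuous hs)) hsup, fun p => ?_⟩
  show tr χ (shear (cjf e1 a) e0) (tr χ (mdl K y) p) =
    tr χ (mdl K y') (tr χ (shear (cjf e1 a) e0) p)
  rw [tr_comp hχ (mdl_sup h K hσ hy), tr_comp hχ hsup]
  congr 1
  funext u
  exact conj_model h K hσ hσ' hy hy' u

/-! ### the parameter map -/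

/-- markers -/
noncomputable def mrk (m : ℕ) : ℝ :=
  min 1 (((Nat.unpair m).1 : ℝ) / ((Nat.unpair m).2 + 1))

/-- truncation to the unit interval -/
noncomputable def clip (t : ℝ) : ℝ := max 0 (min 1 t)

/-- the sequence of positions -/
noncomputable def pos (x : ℕ → ℝ) (i : ℕ) : ℝ :=
  if i % 2 = 0 then clip (x (i / 2)) else mrk (i / 2)

theorem clip_mem (t : ℝ) : 0 ≤ clip t ∧ clip t ≤ 1 :=
  ⟨le_max_left _ _, max_le zero_le_one (min_le_left _ _)⟩

theorem mrk_mem (m : ℕ) : 0 ≤ mrk m ∧ mrk m ≤ 1 :=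
  ⟨le_min zero_le_one (by positivity), min_le_left _ _⟩

theorem pos_mem (x : ℕ → ℝ) (i : ℕ) : 0 ≤ pos x i ∧ pos x i ≤ 1 := by
  unfold pos
  split_ifs
  · exact clip_mem _
  · exact mrk_mem _

theorem clip_lip (s t : ℝ) : |clip s - clip t| ≤ |s - t| := by
  unfold clip
  refine (abs_max_sub_max_le_max _ _ _ _).trans ?_
  rw [sub_self, abs_zero]
  refine max_le (abs_nonneg _) ((abs_min_sub_min_le_max _ _ _ _).trans ?_)
  rw [sub_self, abs_zero]
  exact max_le (abs_nonneg _) le_rfl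

theorem clip_continuous : Continuous clip := by
  unfold clip
  fun_prop

theorem pos_even (x : ℕ → ℝ) (n : ℕ) : pos x (2 * n) = clip (x n) := by
  unfold pos
  rw [if_pos (by omega)]
  congr 2
  omega

theorem pos_odd (x : ℕ → ℝ) (n : ℕ) : pos x (2 * n + 1) = mrk n := by
  unfold pos
  rw [if_neg (by omega)]
  congr 1
  omega

theorem pos_summable {x y : ℕ → ℝ} (h : Summable (fun n => |x n - y n|)) :
    Summable (fun i => |pos y i - pos x i|) := by
  have h1 : Summable (fun n => |pos y (2 * n) - pos x (2 * n)|) := by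
    refine Summable.of_nonneg_of_le (fun _ => abs_nonneg _) (fun n => ?_) h
    rw [pos_even, pos_even, abs_sub_comm (x n)]
    exact clip_lip _ _
  have h2 : Summable (fun n => |pos y (2 * n + 1) - pos x (2 * n + 1)|) := by
    simp only [pos_odd, sub_self, abs_zero]
    exact summable_zero
  exact Summable.even_add_odd h1 h2

theorem mrk_dense (a : ℝ) (h0 : 0 ≤ a) (h1 : a ≤ 1) (ε : ℝ) (hε : 0 < ε) (N : ℕ) :
    ∃ m, N ≤ m ∧ |mrk m - a| < ε := by
  obtain ⟨b, hb⟩ := exists_nat_gt (1 / ε)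
  set c := max N b with hc
  refine ⟨Nat.pair ⌊a * (c + 1)⌋₊ c, (le_max_left _ _).trans (Nat.right_le_pair _ _), ?_⟩
  unfold mrk
  rw [Nat.unpair_pair]
  have hc1 : (0 : ℝ) < (c : ℝ) + 1 := by positivity
  have h2 : (⌊a * (c + 1)⌋₊ : ℝ) ≤ a * (c + 1) := Nat.floor_le (by positivity)
  have h3 : a * (c + 1) < ⌊a * (c + 1)⌋₊ + 1 := Nat.lt_floor_add_one _
  have h4 : (⌊a * (c + 1)⌋₊ : ℝ) / (c + 1) ≤ a := by
    rw [div_le_iff₀ hc1]; exact h2
  have h5 : a - 1 / (c + 1) < (⌊a * (c + 1)⌋₊ : ℝ) / (c + 1) := by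
    rw [lt_div_iff₀ hc1, sub_mul, div_mul_cancel₀ _ hc1.ne']
    linarith
  have h6 : 1 / ((c : ℝ) + 1) < ε := by
    rw [div_lt_iff₀ hc1]
    rw [div_lt_iff₀ hε] at hb
    have h7 : (b : ℝ) ≤ c := by exact_mod_cast le_max_right N b
    nlinarith
  rw [min_eq_right (h4.trans h1), abs_lt]
  constructor <;> linarith

theorem pos_cluster (x y : ℕ → ℝ) (a : ℝ) (h0 : 0 ≤ a) (h1 : a ≤ 1) :
    ∃ F : Filter ℕ, F.NeBot ∧ F ≤ atTop ∧ Tendsto (pos x) F (𝓝 a) ∧
      Tendsto (pos y) F (𝓝 a) := by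
  have h2 : ∀ k : ℕ, ∃ m, k ≤ m ∧ |mrk m - a| < 1 / ((k : ℝ) + 1) := fun k =>
    mrk_dense a h0 h1 _ (by positivity) k
  choose m hm1 hm2 using h2
  have h3 : Tendsto (fun k => 2 * m k + 1) atTop atTop :=
    tendsto_atTop_mono (fun k => by have := hm1 k; simp only [id]; omega) tendsto_id
  have h4 : Tendsto (fun k => mrk (m k)) atTop (𝓝 a) := by
    rw [tendsto_iff_dist_tendsto_zero]
    refine squeeze_zero (fun _ => dist_nonneg) (fun k => ?_) tendsto_one_div_add_atTop_nhds_zero_nat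
    rw [Real.dist_eq]
    exact (hm2 k).le
  refine ⟨map (fun k => 2 * m k + 1) atTop, inferInstance, h3, ?_, ?_⟩
  · rw [tendsto_map'_iff]
    refine h4.congr fun k => ?_
    rw [Function.comp_apply, pos_odd]
  · rw [tendsto_map'_iff]
    refine h4.congr fun k => ?_
    rw [Function.comp_apply, pos_odd]

/-- the parameter space -/
abbrev Par : Type := BoundedContinuousFunction ℕ ℝ

/-- the coordinates -/
noncomputable def cev (i : ℕ) : Par →L[ℝ] ℝ := BoundedContinuousFunction.evalCLM ℝ i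

/-- the parameter of a sequence -/
noncomputable def par (x : ℕ → ℝ) : Par :=
  BoundedContinuousFunction.ofNormedAddCommGroup (fun i => (1 / 2 : ℝ) ^ i * pos x i)
    continuous_of_discreteTopology 1 (fun i => by
      rw [norm_mul, Real.norm_of_nonneg (pos_mem x i).1, Real.norm_of_nonneg (by positivity)]
      exact mul_le_one₀ (pow_le_one₀ (by norm_num) (by norm_num)) (pos_mem x i).1 (pos_mem x i).2)

theorem par_isPar (x : ℕ → ℝ) : IsPar cev (pos x) (par x) := fun _ => rfl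

theorem pos_continuous (i : ℕ) : Continuous (fun x : ℕ → ℝ => pos x i) := by
  unfold pos
  split_ifs
  · exact clip_continuous.comp (continuous_apply _)
  · exact continuous_const

theorem par_continuous : Continuous par := by
  rw [Metric.continuous_iff']
  intro x ε hε
  obtain ⟨N, hN⟩ := ((tendsto_half.eventually_lt_const (half_pos hε)).and
    (eventually_ge_atTop 0)).exists
  have h1 : ∀ i ∈ Finset.range N, ∀ᶠ x' in 𝓝 x, |pos x' i - pos x i| < ε / 2 := by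
    intro i _
    have h := (pos_continuous i).tendsto x
    rw [Metric.tendsto_nhds] at h
    exact h (ε / 2) (half_pos hε)
  rw [← Filter.eventually_all_finset] at h1
  filter_upwards [h1] with x' hx'
  refine lt_of_le_of_lt ((BoundedContinuousFunction.dist_le (half_pos hε).le).2 fun i => ?_)
    (half_lt_self hε)
  show dist ((1 / 2 : ℝ) ^ i * pos x' i) ((1 / 2 : ℝ) ^ i * pos x i) ≤ ε / 2
  have hp : (0 : ℝ) ≤ (1 / 2) ^ i := by positivity
  rw [Real.dist_eq, ← mul_sub, abs_mul, abs_of_nonneg hp]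
  by_cases hi : i < N
  · have h2 := hx' i (Finset.mem_range.2 hi)
    have h3 : ((1 : ℝ) / 2) ^ i ≤ 1 := pow_le_one₀ (by norm_num) (by norm_num)
    have h4 := abs_nonneg (pos x' i - pos x i)
    nlinarith
  · have h2 : ((1 : ℝ) / 2) ^ i ≤ (1 / 2) ^ N :=
      pow_le_pow_of_le_one (by norm_num) (by norm_num) (not_lt.1 hi)
    have h3 : |pos x' i - pos x i| ≤ 1 := by
      rw [abs_le]
      have a1 := pos_mem x i
      have a2 := pos_mem x' i
      constructor <;> linarith [a1.1, a1.2, a2.1, a2.2]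
    have h4 := abs_nonneg (pos x' i - pos x i)
    have h5 := hN.1
    nlinarith

end Pool.Agent.W2helper9.TC
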