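import Mathlib

/-!
# Joint continuity of partial derivatives
-/

set_option autoImplicit false

open Set Filter Topology
open scoped ContDiff

namespace Pool.Agent.W2helper9.TC

variable {Y E F : Type*} [NormedAddCommGroup Y] [NormedSpace ℝ Y] [NormedAddCommGroup E]
  [NormedSpace ℝ E] [NormedAddCommGroup F] [NormedSpace ℝ F]

theorem iteratedFDeriv_comp_at {G : Type*} [NormedAddCommGroup G] [NormedSpace ℝ G]
    {f : E → F} (g : G →L[ℝ] E) {x : G} {j : ℕ} (h : ContDiffAt ℝ j f (g x)) :
    iteratedFDeriv ℝ j (f ∘ g) x = (iteratedFDeriv ℝ j f (g x)).compContinuousLinearMap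
      fun _ => g := by
  obtain ⟨u, hu, hfu⟩ := h.contDiffOn (m := j) le_rfl (by simp)
  obtain ⟨s, hsu, hs, hxs⟩ := mem_nhds_iff.1 hu
  have h1 := g.iteratedFDerivWithin_comp_right (hfu.mono hsu) hs.uniqueDiffOn
    (hs.preimage g.continuous).uniqueDiffOn hxs (i := j) le_rfl
  rw [iteratedFDerivWithin_of_isOpen j hs hxs,
    iteratedFDerivWithin_of_isOpen j (hs.preimage g.continuous) (show x ∈ g ⁻¹' s from hxs)] at h1
  exact h1

theorem partial_iter {Ψ : Y × E → F} {y : Y} {z : E} {j : ℕ} (h : ContDiffAt ℝ j Ψ (y, z)) :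
    iteratedFDeriv ℝ j (fun u => Ψ (y, u)) z =
      (iteratedFDeriv ℝ j Ψ (y, z)).compContinuousLinearMap
        fun _ => ContinuousLinearMap.inr ℝ Y E := by
  have e1 : ((y, 0) : Y × E) + ContinuousLinearMap.inr ℝ Y E z = (y, z) := by
    simp [ContinuousLinearMap.inr_apply]
  have h1 : ContDiffAt ℝ j (fun w => Ψ ((y, 0) + w)) (ContinuousLinearMap.inr ℝ Y E z) := by
    refine ContDiffAt.comp (g := Ψ) (ContinuousLinearMap.inr ℝ Y E z) ?_
      (contDiffAt_const.add contDiffAt_id)
    rw [e1]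
    exact h
  have h2 := iteratedFDeriv_comp_at (ContinuousLinearMap.inr ℝ Y E) h1
  rw [iteratedFDeriv_comp_add_left, e1] at h2
  rw [← h2]
  congr 1
  funext u
  simp [ContinuousLinearMap.inr_apply]

/-- joint continuity of the partial iterated derivatives -/
theorem partial_cont {Ψ : Y × E → F} {y : Y} {z : E} (h : ContDiffAt ℝ ∞ Ψ (y, z)) (j : ℕ) :
    ContinuousAt (fun q : Y × E => iteratedFDeriv ℝ j (fun u => Ψ (q.1, u)) q.2) (y, z) := by
  have h0 : ContDiffAt ℝ j Ψ (y, z) := h.of_le (mod_cast le_top)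
  have h1 : ∀ᶠ q : Y × E in 𝓝 (y, z), ContDiffAt ℝ j Ψ q := h0.eventually (by simp)
  have h2 : ContinuousAt (fun q : Y × E =>
      (iteratedFDeriv ℝ j Ψ q).compContinuousLinearMap
        fun _ => ContinuousLinearMap.inr ℝ Y E) (y, z) := by
    have h3 := h0.continuousAt_iteratedFDeriv (k := j) le_rfl
    have h4 : Continuous (fun m : ContinuousMultilinearMap ℝ (fun _ : Fin j => Y × E) F =>
        m.compContinuousLinearMap fun _ => ContinuousLinearMap.inr ℝ Y E) :=
      map_continuous (ContinuousMultilinearMap.compContinuousLinearMapL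
        (fun _ : Fin j => ContinuousLinearMap.inr ℝ Y E))
    exact h4.continuousAt.comp h3
  refine h2.congr ?_
  filter_upwards [h1] with q hq
  exact (partial_iter (y := q.1) (z := q.2) hq).symm

end Pool.Agent.W2helper9.TC
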