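import Mathlib

/-!
# Shear maps `u ↦ u + g u • e`
-/

set_option autoImplicit false

open Set Filter Topology
open scoped ContDiff

namespace Pool.Agent.W2helper9.TC

variable {E : Type*} [NormedAddCommGroup E] [NormedSpace ℝ E]

/-- the shear map -/
def shear (g : E → ℝ) (e : E) (u : E) : E := u + g u • e

/-- half-contraction along `e` -/
def HalfLip (g : E → ℝ) (e : E) : Prop := ∀ (u : E) (s : ℝ), |g (u + s • e) - g u| ≤ |s| / 2

theorem shear_injective {g : E → ℝ} {e : E} (hg : HalfLip g e) :
    Function.Injective (shear g e) := by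
  intro u v h
  unfold shear at h
  have hv : v = u + (g u - g v) • e := by
    rw [sub_smul]
    rw [← sub_eq_zero] at h ⊢
    rw [← neg_eq_zero, ← h]
    abel
  have h1 := hg u (g u - g v)
  rw [← hv] at h1
  have h2 : |g v - g u| = |g u - g v| := abs_sub_comm _ _
  have h3 : |g u - g v| = 0 := by
    have := abs_nonneg (g u - g v)
    linarith
  rw [abs_eq_zero] at h3
  rw [h3, zero_smul, add_zero] at hv
  exact hv.symm

theorem shear_surjective {g : E → ℝ} {e : E} (hg : HalfLip g e) :
    Function.Surjective (shear g e) := by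
  intro v
  have hc : ContractingWith (1 / 2) (fun s : ℝ => g (v - s • e)) := by
    refine ⟨by norm_num, LipschitzWith.of_dist_le_mul fun s t => ?_⟩
    rw [Real.dist_eq, Real.dist_eq]
    have h1 := hg (v - t • e) (t - s)
    have h2 : v - t • e + (t - s) • e = v - s • e := by
      rw [sub_smul]; abel
    rw [h2, abs_sub_comm t s] at h1
    refine h1.trans (le_of_eq ?_)
    push_cast
    ring
  refine ⟨v - (ContractingWith.fixedPoint _ hc) • e, ?_⟩
  have h := hc.fixedPoint_isFixedPt
  have h' : g (v - (ContractingWith.fixedPoint _ hc) • e) = ContractingWith.fixedPoint _ hc := h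
  unfold shear
  rw [h']
  abel

theorem shear_bijective {g : E → ℝ} {e : E} (hg : HalfLip g e) :
    Function.Bijective (shear g e) := ⟨shear_injective hg, shear_surjective hg⟩

/-- the inverse of a continuous shear map is continuous -/
theorem shear_symm_continuous {g : E → ℝ} {e : E} (hg : HalfLip g e) (hc : Continuous g) :
    Continuous (Equiv.ofBijective _ (shear_bijective hg)).symm := by
  set S := Equiv.ofBijective _ (shear_bijective hg) with hS
  have hSa : ∀ u, S u = u + g u • e := fun u => rfl
  -- the shift
  have key : ∀ v v' : E, |g (S.symm v') - g (S.symm v)| ≤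
      2 * |g (v' - g (S.symm v) • e) - g (v - g (S.symm v) • e)| := by
    intro v v'
    have h1 : ∀ w : E, S.symm w = w - g (S.symm w) • e := by
      intro w
      have := hSa (S.symm w)
      rw [Equiv.apply_symm_apply] at this
      rw [eq_sub_iff_add_eq]
      exact this.symm
    set s := g (S.symm v)
    set s' := g (S.symm v')
    have e1 : s = g (v - s • e) := by rw [← h1 v]
    have e2 : s' = g (v' - s' • e) := by rw [← h1 v']
    have h2 := hg (v' - s • e) (s - s')
    have h3 : v' - s • e + (s - s') • e = v' - s' • e := by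
      rw [sub_smul]; abel
    rw [h3] at h2
    have h4 : |s' - s| ≤ |g (v' - s' • e) - g (v' - s • e)| + |g (v' - s • e) - g (v - s • e)| := by
      have : s' - s = (g (v' - s' • e) - g (v' - s • e)) + (g (v' - s • e) - g (v - s • e)) := by
        rw [← e1, ← e2]; ring
      rw [this]
      exact abs_add_le _ _
    rw [abs_sub_comm s s'] at h2
    linarith
  have hcont : Continuous (fun v => g (S.symm v)) := by
    rw [continuous_iff_continuousAt]
    intro v
    rw [ContinuousAt, tendsto_iff_dist_tendsto_zero]
    have h0 : Tendsto (fun v' : E => 2 * |g (v' - g (S.symm v) • e) - g (v - g (S.symm v) • e)|)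
        (𝓝 v) (𝓝 0) := by
      have : Continuous (fun v' : E =>
          2 * |g (v' - g (S.symm v) • e) - g (v - g (S.symm v) • e)|) := by fun_prop
      have h := this.tendsto v
      simpa using h
    refine squeeze_zero (fun _ => dist_nonneg) (fun v' => ?_) h0
    rw [Real.dist_eq]
    exact key v v'
  have : (fun v => S.symm v) = fun v => v - g (S.symm v) • e := by
    funext w
    have := hSa (S.symm w)
    rw [Equiv.apply_symm_apply] at this
    rw [eq_sub_iff_add_eq]
    exact this.symm
  show Continuous (fun v => S.symm v)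
  rw [this]
  exact continuous_id.sub (hcont.smul continuous_const)

/-- a continuous shear map as a homeomorphism -/
noncomputable def shearHomeo (g : E → ℝ) (e : E) (hg : HalfLip g e) (hc : Continuous g) :
    E ≃ₜ E where
  toEquiv := Equiv.ofBijective _ (shear_bijective hg)
  continuous_toFun := by
    show Continuous (shear g e)
    unfold shear
    fun_prop
  continuous_invFun := shear_symm_continuous hg hc

@[simp] theorem shearHomeo_apply (g : E → ℝ) (e : E) (hg : HalfLip g e) (hc : Continuous g)
    (u : E) : shearHomeo g e hg hc u = u + g u • e := rfl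

theorem fderiv_le_half {g : E → ℝ} {e : E} (hg : HalfLip g e) (u : E)
    (hd : DifferentiableAt ℝ g u) : |fderiv ℝ g u e| ≤ 1 / 2 := by
  have h1 : HasDerivAt (fun s : ℝ => g (u + s • e)) (fderiv ℝ g u e) 0 := by
    have h2 : HasDerivAt (fun s : ℝ => u + s • e) ((1 : ℝ) • e) 0 :=
      ((hasDerivAt_id (0 : ℝ)).smul_const e).const_add u
    have h3 : HasFDerivAt g (fderiv ℝ g u) (u + (0 : ℝ) • e) := by
      rw [zero_smul, add_zero]; exact hd.hasFDerivAt
    have h4 := h3.comp_hasDerivAt (0 : ℝ) h2
    rw [one_smul] at h4
    exact h4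
  have h5 := h1.tendsto_slope
  have h6 : ∀ᶠ s : ℝ in 𝓝[≠] 0, |slope (fun s : ℝ => g (u + s • e)) 0 s| ≤ 1 / 2 := by
    filter_upwards [self_mem_nhdsWithin] with s hs
    have hs' : s ≠ 0 := hs
    rw [slope_def_field, zero_smul, add_zero, sub_zero, abs_div]
    rw [div_le_iff₀ (abs_pos.2 hs')]
    have := hg u s
    linarith
  exact le_of_tendsto (h5.abs) h6

/-- the derivative of the shear map -/
noncomputable def shearDeriv (L : E →L[ℝ] ℝ) (e : E) (hL : |L e| ≤ 1 / 2) : E ≃L[ℝ] E :=
  have h0 : 1 + L e ≠ 0 := by
    have := (abs_le.1 hL).1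
    intro h
    linarith
  ContinuousLinearEquiv.equivOfInverse
    (ContinuousLinearMap.id ℝ E + L.smulRight e)
    (ContinuousLinearMap.id ℝ E - (1 + L e)⁻¹ • L.smulRight e)
    (by
      intro v
      have h1 : (1 + L e)⁻¹ * (1 + L e) = 1 := inv_mul_cancel₀ h0
      have h2 : (ContinuousLinearMap.id ℝ E - (1 + L e)⁻¹ • L.smulRight e)
          ((ContinuousLinearMap.id ℝ E + L.smulRight e) v) =
          v + (L v * (1 - (1 + L e)⁻¹ * (1 + L e))) • e := by
        simp only [sub_apply, ContinuousLinearMap.id_apply,
          add_apply, ContinuousLinearMap.smulRight_apply,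
          ContinuousLinearMap.coe_smul', Pi.smul_apply, map_add, map_smul, smul_eq_mul]
        module
      rw [h2, h1, sub_self, mul_zero, zero_smul, add_zero])
    (by
      intro v
      have h1 : (1 + L e)⁻¹ * (1 + L e) = 1 := inv_mul_cancel₀ h0
      have h2 : (ContinuousLinearMap.id ℝ E + L.smulRight e)
          ((ContinuousLinearMap.id ℝ E - (1 + L e)⁻¹ • L.smulRight e) v) =
          v + (L v * (1 - (1 + L e)⁻¹ * (1 + L e))) • e := by
        simp only [sub_apply, ContinuousLinearMap.id_apply,
          add_apply, ContinuousLinearMap.smulRight_apply,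
          ContinuousLinearMap.coe_smul', Pi.smul_apply, map_sub, map_smul, smul_eq_mul]
        module
      rw [h2, h1, sub_self, mul_zero, zero_smul, add_zero])

theorem shearHomeo_contDiff {g : E → ℝ} {e : E} (hg : HalfLip g e) (hc : ContDiff ℝ ∞ g) :
    ContDiff ℝ ∞ (shearHomeo g e hg hc.continuous) := by
  show ContDiff ℝ ∞ (fun u => u + g u • e)
  exact contDiff_id.add (hc.smul contDiff_const)

theorem shearHomeo_symm_contDiff [CompleteSpace E] {g : E → ℝ} {e : E} (hg : HalfLip g e)
    (hc : ContDiff ℝ ∞ g) :
    ContDiff ℝ ∞ (shearHomeo g e hg hc.continuous).symm := by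
  have hd : Differentiable ℝ g := hc.differentiable (by simp)
  refine Homeomorph.contDiff_symm (shearHomeo g e hg hc.continuous)
    (f₀' := fun u => shearDeriv (fderiv ℝ g u) e (fderiv_le_half hg u (hd u))) (fun u => ?_)
    (shearHomeo_contDiff hg hc)
  have h1 : HasFDerivAt (fun u => u + g u • e)
      (ContinuousLinearMap.id ℝ E + (fderiv ℝ g u).smulRight e) u :=
    (hasFDerivAt_id u).add ((hd u).hasFDerivAt.smul_const e)
  exact h1

end Pool.Agent.W2helper9.TC
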