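import Pool.Agent.W2helper9.TC.Lim
import Pool.Agent.W2helper9.TC.Part

/-!
# The smooth topology and the continuity of the family
-/

set_option autoImplicit false
set_option linter.unusedSectionVars false

open Set Filter Topology
open scoped ContDiff InnerProductSpace Manifold

namespace Pool.Agent.W2helper9.TC

variable {E : Type*} [NormedAddCommGroup E] [NormedSpace ℝ E]
variable {M : Type*} [TopologicalSpace M] [ChartedSpace E M]

/-- smooth diffeomorphisms -/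
abbrev Dif (E : Type*) [NormedAddCommGroup E] [NormedSpace ℝ E] (M : Type*) [TopologicalSpace M]
    [ChartedSpace E M] : Type _ := Diffeomorph 𝓘(ℝ, E) 𝓘(ℝ, E) M M ∞

/-- basic open sets -/
def nbd (φ ψ : OpenPartialHomeomorph M E) (K : Set M) (f : Dif E M) (k : ℕ) (ε : ℝ) :
    Set (Dif E M) :=
  {g | (∀ p ∈ K, g p ∈ ψ.source) ∧ ∀ p ∈ K, ∀ j ≤ k,
    ‖iteratedFDeriv ℝ j (fun u => ψ (g (φ.symm u))) (φ p) -
      iteratedFDeriv ℝ j (fun u => ψ (f (φ.symm u))) (φ p)‖ < ε}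

variable {Y : Type*} [NormedAddCommGroup Y] [NormedSpace ℝ Y] {P : Type*} [TopologicalSpace P]
variable {χ φ ψ : OpenPartialHomeomorph M E}

theorem chart_comp [IsManifold 𝓘(ℝ, E) ∞ M] (hφ : φ ∈ IsManifold.maximalAtlas 𝓘(ℝ, E) ∞ M)
    (hψ : ψ ∈ IsManifold.maximalAtlas 𝓘(ℝ, E) ∞ M) {z : E} (hz : z ∈ φ.target)
    (hz' : φ.symm z ∈ ψ.source) : ContDiffAt ℝ ∞ (fun u => ψ (φ.symm u)) z := by
  have h1 : ContMDiffAt 𝓘(ℝ, E) 𝓘(ℝ, E) ∞ φ.symm z :=
    contMDiffAt_symm_of_mem_maximalAtlas hφ hz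
  have h2 : ContMDiffAt 𝓘(ℝ, E) 𝓘(ℝ, E) ∞ ψ (φ.symm z) :=
    contMDiffAt_of_mem_maximalAtlas hψ hz'
  exact (h2.comp z h1).contDiffAt

theorem chart_comp_dif [IsManifold 𝓘(ℝ, E) ∞ M] (hφ : φ ∈ IsManifold.maximalAtlas 𝓘(ℝ, E) ∞ M)
    (hψ : ψ ∈ IsManifold.maximalAtlas 𝓘(ℝ, E) ∞ M) {z : E} (hz : z ∈ φ.target) (f : Dif E M)
    (hz' : f (φ.symm z) ∈ ψ.source) : ContDiffAt ℝ ∞ (fun u => ψ (f (φ.symm u))) z := by
  have h1 : ContMDiffAt 𝓘(ℝ, E) 𝓘(ℝ, E) ∞ φ.symm z :=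
    contMDiffAt_symm_of_mem_maximalAtlas hφ hz
  have h3 : ContMDiffAt 𝓘(ℝ, E) 𝓘(ℝ, E) ∞ f (φ.symm z) := f.contMDiff.contMDiffAt
  have h2 : ContMDiffAt 𝓘(ℝ, E) 𝓘(ℝ, E) ∞ ψ (f (φ.symm z)) :=
    contMDiffAt_of_mem_maximalAtlas hψ hz'
  exact (h2.comp z (h3.comp z h1)).contDiffAt

/-- a local formula for the family read in charts -/
theorem local_rep [T2Space M] [ProperSpace E] [IsManifold 𝓘(ℝ, E) ∞ M]
    (hχ : Metric.closedBall (0 : E) 8 ⊆ χ.target)
    (hM : χ ∈ IsManifold.maximalAtlas 𝓘(ℝ, E) ∞ M)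
    (hφ : φ ∈ IsManifold.maximalAtlas 𝓘(ℝ, E) ∞ M)
    (hψ : ψ ∈ IsManifold.maximalAtlas 𝓘(ℝ, E) ∞ M)
    {H : Y × E → E} (hH : ContDiff ℝ ∞ H) {y : P → Y} (hs : ∀ x, Sup (fun u => H (y x, u)))
    (x0 : P) {z0 : E} (hz : z0 ∈ φ.target)
    (hz' : tr χ (fun u => H (y x0, u)) (φ.symm z0) ∈ ψ.source) :
    ∃ Ψ : Y × E → E, ContDiffAt ℝ ∞ Ψ (y x0, z0) ∧ ∀ᶠ u in 𝓝 z0, ∀ x : P,
      ψ (tr χ (fun v => H (y x, v)) (φ.symm u)) = Ψ (y x, u) := by
  by_cases hp : φ.symm z0 ∈ χ.source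
  · refine ⟨fun w => ψ (χ.symm (H (w.1, χ (φ.symm w.2)))), ?_, ?_⟩
    · have h1 : ContDiffAt ℝ ∞ (fun u => χ (φ.symm u)) z0 := chart_comp hφ hM hz hp
      have h2 : ContDiffAt ℝ ∞ (fun w : Y × E => (w.1, χ (φ.symm w.2))) (y x0, z0) := by
        refine contDiffAt_fst.prodMk ?_
        exact ContDiffAt.comp (g := fun u => χ (φ.symm u)) (y x0, z0) h1 contDiffAt_snd
      have h3 : ContDiffAt ℝ ∞ (fun w : Y × E => H (w.1, χ (φ.symm w.2))) (y x0, z0) :=
        ContDiffAt.comp (g := H) (y x0, z0) hH.contDiffAt h2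
      rw [tr_source hp] at hz'
      have ht : H (y x0, χ (φ.symm z0)) ∈ χ.target := (hs x0).target hχ (χ.map_source hp)
      have h4 : ContDiffAt ℝ ∞ (fun u => ψ (χ.symm u)) (H (y x0, χ (φ.symm z0))) :=
        chart_comp hM hψ ht hz'
      exact ContDiffAt.comp (g := fun u => ψ (χ.symm u)) (y x0, z0) h4 h3
    · have h1 : ∀ᶠ u in 𝓝 z0, φ.symm u ∈ χ.source :=
        (φ.symm.continuousAt hz).eventually (χ.open_source.mem_nhds hp)
      filter_upwards [h1] with u hu x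
      rw [tr_source hu]
  · have hp' : φ.symm z0 ∉ χ.symm '' Metric.closedBall (0 : E) 8 := by
      rintro ⟨u, hu, he⟩
      exact hp (he ▸ χ.map_target (hχ hu))
    rw [tr_notin hp] at hz'
    refine ⟨fun w => ψ (φ.symm w.2), ?_, ?_⟩
    · exact ContDiffAt.comp (g := fun u => ψ (φ.symm u)) (y x0, z0)
        (chart_comp hφ hψ hz hz') contDiffAt_snd
    · have h1 := (φ.symm.continuousAt hz).eventually (tr_eventually_id hχ hp')
      filter_upwards [h1] with u hu x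
      rw [tr_out (hs x) hu]

theorem tr_joint [T2Space M] [ProperSpace E]
    (hχ : Metric.closedBall (0 : E) 8 ⊆ χ.target)
    {H : Y × E → E} (hH : Continuous H) {y : P → Y} (hy : Continuous y)
    (hs : ∀ x, Sup (fun u => H (y x, u))) (x0 : P) (p0 : M) :
    ContinuousAt (fun q : P × M => tr χ (fun u => H (y q.1, u)) q.2) (x0, p0) := by
  by_cases hp : p0 ∈ χ.source
  · have h1 : ContinuousAt (fun q : P × M => χ.symm (H (y q.1, χ q.2))) (x0, p0) := by
      have h2 : ContinuousAt χ.symm (H (y x0, χ p0)) :=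
        χ.symm.continuousAt ((hs x0).target hχ (χ.map_source hp))
      have h3 : ContinuousAt (fun q : P × M => (y q.1, χ q.2)) (x0, p0) := by
        refine (hy.comp continuous_fst).continuousAt.prodMk ?_
        exact ContinuousAt.comp (g := χ) (χ.continuousAt hp) continuousAt_snd
      exact ContinuousAt.comp (g := χ.symm) h2
        (ContinuousAt.comp (g := H) hH.continuousAt h3)
    refine h1.congr ?_
    filter_upwards [continuousAt_snd.eventually (χ.open_source.mem_nhds hp)] with q hq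
    rw [tr_source hq]
  · have hp' : p0 ∉ χ.symm '' Metric.closedBall (0 : E) 8 := by
      rintro ⟨u, hu, rfl⟩
      exact hp (χ.map_target (hχ hu))
    refine (continuousAt_snd (p := (x0, p0))).congr ?_
    filter_upwards [continuousAt_snd.eventually (tr_eventually_id hχ hp')] with q hq
    rw [tr_out (hs q.1) hq]

/-- continuity of the family -/
theorem family_nbd [T2Space M] [ProperSpace E] [IsManifold 𝓘(ℝ, E) ∞ M]
    (hχ : Metric.closedBall (0 : E) 8 ⊆ χ.target)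
    (hM : χ ∈ IsManifold.maximalAtlas 𝓘(ℝ, E) ∞ M)
    (hφ : φ ∈ IsManifold.maximalAtlas 𝓘(ℝ, E) ∞ M)
    (hψ : ψ ∈ IsManifold.maximalAtlas 𝓘(ℝ, E) ∞ M)
    {H : Y × E → E} (hH : ContDiff ℝ ∞ H) {y : P → Y} (hy : Continuous y)
    (hs : ∀ x, Sup (fun u => H (y x, u))) {K : Set M} (hK : IsCompact K) (hKφ : K ⊆ φ.source)
    (f : Dif E M) (hf : ∀ p ∈ K, f p ∈ ψ.source) (k : ℕ) (ε : ℝ)
    (D : P → Dif E M) (hD : ∀ x p, D x p = tr χ (fun u => H (y x, u)) p) :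
    IsOpen {x | D x ∈ nbd φ ψ K f k ε} := by
  rw [isOpen_iff_mem_nhds]
  intro x0 hx0
  obtain ⟨hx1, hx2⟩ := hx0
  have hDf : ∀ x, (fun u => ψ (D x (φ.symm u))) =
      fun u => ψ (tr χ (fun v => H (y x, v)) (φ.symm u)) := fun x => funext fun u => by rw [hD]
  have hKc : IsCompact (φ '' K) := hK.image_of_continuousOn (φ.continuousOn.mono hKφ)
  -- the two conditions
  have h1 : ∀ᶠ x in 𝓝 x0, ∀ p ∈ K, D x p ∈ ψ.source := by
    refine hK.eventually_forall_of_forall_eventually fun p hp => ?_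
    have h2 := tr_joint hχ hH.continuous hy hs x0 p
    have h3 : tr χ (fun u => H (y x0, u)) p ∈ ψ.source := by rw [← hD]; exact hx1 p hp
    have h4 := h2.eventually (ψ.open_source.mem_nhds h3)
    filter_upwards [h4] with q hq
    rw [hD]
    exact hq
  have h2 : ∀ j ≤ k, ∀ᶠ x in 𝓝 x0, ∀ z ∈ φ '' K,
      ‖iteratedFDeriv ℝ j (fun u => ψ (D x (φ.symm u))) z -
      iteratedFDeriv ℝ j (fun u => ψ (f (φ.symm u))) z‖ < ε := by
    intro j hj
    refine hKc.eventually_forall_of_forall_eventually fun z hz => ?_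
    obtain ⟨p, hp, rfl⟩ := hz
    have hpt : φ p ∈ φ.target := φ.map_source (hKφ hp)
    have hpp : φ.symm (φ p) = p := φ.left_inv (hKφ hp)
    have h3 : tr χ (fun u => H (y x0, u)) (φ.symm (φ p)) ∈ ψ.source := by
      rw [hpp, ← hD]; exact hx1 p hp
    obtain ⟨Ψ, hΨ, hloc⟩ := local_rep hχ hM hφ hψ hH hs x0 hpt h3
    have h4 : ContinuousAt (fun q : P × E =>
        iteratedFDeriv ℝ j (fun u => Ψ (y q.1, u)) q.2) (x0, φ p) := by
      have h5 : ContinuousAt (fun q : P × E => (y q.1, q.2)) (x0, φ p) :=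
        (hy.comp continuous_fst).continuousAt.prodMk continuousAt_snd
      exact ContinuousAt.comp (f := fun q : P × E => (y q.1, q.2)) (x := (x0, φ p))
        (g := fun q : Y × E => iteratedFDeriv ℝ j (fun u => Ψ (q.1, u)) q.2)
        (partial_cont hΨ j) h5
    have h6 : ContDiffAt ℝ ∞ (fun u => ψ (f (φ.symm u))) (φ p) := by
      refine chart_comp_dif hφ hψ hpt f ?_
      rw [hpp]; exact hf p hp
    have h7 : ContinuousAt (fun q : P × E =>
        iteratedFDeriv ℝ j (fun u => ψ (f (φ.symm u))) q.2) (x0, φ p) :=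
      ContinuousAt.comp (g := iteratedFDeriv ℝ j (fun u => ψ (f (φ.symm u))))
        (h6.continuousAt_iteratedFDeriv (mod_cast le_top)) continuousAt_snd
    have h8 : ∀ x, ∀ u, (∀ᶠ v in 𝓝 u, ψ (tr χ (fun v => H (y x, v)) (φ.symm v)) = Ψ (y x, v)) →
        iteratedFDeriv ℝ j (fun u => ψ (D x (φ.symm u))) u =
        iteratedFDeriv ℝ j (fun u => Ψ (y x, u)) u := by
      intro x u hu
      rw [hDf]
      exact (Filter.EventuallyEq.iteratedFDeriv (𝕜 := ℝ) hu j).eq_of_nhds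
    have hloc' := (eventually_eventually_nhds.2 hloc)
    have h9 : ‖iteratedFDeriv ℝ j (fun u => Ψ (y x0, u)) (φ p) -
        iteratedFDeriv ℝ j (fun u => ψ (f (φ.symm u))) (φ p)‖ < ε := by
      rw [← h8 x0 (φ p) (hloc.mono fun u hu => hu x0)]
      exact hx2 p hp j hj
    have h10 : ContinuousAt (fun q : P × E => ‖iteratedFDeriv ℝ j (fun u => Ψ (y q.1, u)) q.2 -
        iteratedFDeriv ℝ j (fun u => ψ (f (φ.symm u))) q.2‖) (x0, φ p) := (h4.sub h7).norm
    have h11 := h10.eventually_lt_const h9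
    have h12 : ∀ᶠ q : P × E in 𝓝 (x0, φ p), ∀ᶠ v in 𝓝 q.2, ∀ x : P,
        ψ (tr χ (fun w => H (y x, w)) (φ.symm v)) = Ψ (y x, v) :=
      (continuousAt_snd (p := (x0, φ p))).eventually hloc'
    filter_upwards [h11, h12] with q hq hq2
    rw [h8 q.1 q.2 (hq2.mono fun u hu => hu q.1)]
    exact hq
  have h3 : ∀ᶠ x in 𝓝 x0, ∀ j ∈ Finset.range (k + 1), ∀ z ∈ φ '' K,
      ‖iteratedFDeriv ℝ j (fun u => ψ (D x (φ.symm u))) z -
      iteratedFDeriv ℝ j (fun u => ψ (f (φ.symm u))) z‖ < ε := by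
    rw [Filter.eventually_all_finset]
    intro j hj
    exact h2 j (by have := Finset.mem_range.1 hj; omega)
  filter_upwards [h1, h3] with x hx hx'
  exact ⟨hx, fun p hp j hj => hx' j (Finset.mem_range.2 (by omega)) _ (mem_image_of_mem _ hp)⟩

end Pool.Agent.W2helper9.TC
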