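import Pool.Agent.W2helper9.TC.Geo

/-!
# Transport of maps supported in a ball to a manifold
-/

set_option autoImplicit false
set_option linter.unusedSectionVars false

open Set Filter Topology
open scoped ContDiff InnerProductSpace Manifold

namespace Pool.Agent.W2helper9.TC

variable {E : Type*} [NormedAddCommGroup E]

/-- `H` is the identity outside of the open ball of radius `8` and maps this ball into itself -/
structure Sup (H : E → E) : Prop where
  out : ∀ u, 8 ≤ ‖u‖ → H u = u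
  inn : ∀ u, ‖u‖ < 8 → ‖H u‖ < 8

theorem Sup.of_injective {H : E → E} (hi : Function.Injective H) (h : ∀ u, 8 ≤ ‖u‖ → H u = u) :
    Sup H := by
  refine ⟨h, fun u hu => ?_⟩
  by_contra hc
  rw [not_lt] at hc
  have h1 := hi (h _ hc)
  rw [h1] at hc
  linarith

theorem Sup.comp {H H' : E → E} (h : Sup H) (h' : Sup H') : Sup (H ∘ H') :=
  ⟨fun u hu => by simp only [Function.comp_apply]; rw [h'.out u hu, h.out u hu],
    fun u hu => h.inn _ (h'.inn u hu)⟩

theorem Sup.id : Sup (fun u : E => u) := ⟨fun _ _ => rfl, fun _ h => h⟩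

theorem Sup.symm {H : E ≃ E} (h : Sup H) : Sup H.symm :=
  Sup.of_injective H.symm.injective fun u hu => by
    rw [Equiv.symm_apply_eq, h.out u hu]

variable {M : Type*} [TopologicalSpace M]

open Classical in
/-- the transported map -/
noncomputable def tr (χ : OpenPartialHomeomorph M E) (H : E → E) (p : M) : M :=
  if p ∈ χ.source then χ.symm (H (χ p)) else p

variable {χ : OpenPartialHomeomorph M E}

theorem mem_target (hχ : Metric.closedBall (0 : E) 8 ⊆ χ.target) {u : E} (hu : ‖u‖ ≤ 8) :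
    u ∈ χ.target := hχ (mem_closedBall_zero_iff.2 hu)

theorem Sup.target (hχ : Metric.closedBall (0 : E) 8 ⊆ χ.target) {H : E → E} (h : Sup H) {u : E}
    (hu : u ∈ χ.target) : H u ∈ χ.target := by
  by_cases h8 : 8 ≤ ‖u‖
  · rwa [h.out u h8]
  · exact mem_target hχ (h.inn u (not_le.1 h8)).le

theorem tr_symm {H : E → E} {u : E} (hu : u ∈ χ.target) :
    tr χ H (χ.symm u) = χ.symm (H u) := by
  unfold tr
  rw [if_pos (χ.map_target hu), χ.right_inv hu]

theorem tr_source {H : E → E} {p : M} (hp : p ∈ χ.source) : tr χ H p = χ.symm (H (χ p)) := by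
  unfold tr
  rw [if_pos hp]

theorem tr_notin {H : E → E} {p : M} (hp : p ∉ χ.source) : tr χ H p = p := by
  unfold tr
  rw [if_neg hp]

theorem tr_comp (hχ : Metric.closedBall (0 : E) 8 ⊆ χ.target) {H H' : E → E} (h' : Sup H')
    (p : M) : tr χ H (tr χ H' p) = tr χ (H ∘ H') p := by
  by_cases hp : p ∈ χ.source
  · rw [tr_source hp, tr_symm (h'.target hχ (χ.map_source hp)), tr_source hp]
    rfl
  · rw [tr_notin hp, tr_notin hp, tr_notin hp]

theorem tr_id (p : M) : tr χ (fun u => u) p = p := by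
  by_cases hp : p ∈ χ.source
  · rw [tr_source hp, χ.left_inv hp]
  · rw [tr_notin hp]

theorem tr_symm_fixed (hχ : Metric.closedBall (0 : E) 8 ⊆ χ.target) {H : E → E} (h : Sup H)
    {u : E} (hu : u ∈ χ.target) : tr χ H (χ.symm u) = χ.symm u ↔ H u = u := by
  rw [tr_symm hu]
  exact ⟨fun e => χ.symm.injOn (h.target hχ hu) hu e, fun e => by rw [e]⟩

/-- the image of the closed ball -/
theorem isCompact_ball [ProperSpace E] (hχ : Metric.closedBall (0 : E) 8 ⊆ χ.target) :
    IsCompact (χ.symm '' Metric.closedBall (0 : E) 8) :=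
  (isCompact_closedBall (0 : E) 8).image_of_continuousOn (χ.symm.continuousOn.mono hχ)

theorem tr_out {H : E → E} (h : Sup H) {p : M}
    (hp : p ∉ χ.symm '' Metric.closedBall (0 : E) 8) : tr χ H p = p := by
  by_cases hs : p ∈ χ.source
  · rw [tr_source hs, h.out, χ.left_inv hs]
    by_contra hc
    rw [not_le] at hc
    exact hp ⟨χ p, mem_closedBall_zero_iff.2 hc.le, χ.left_inv hs⟩
  · exact tr_notin hs

theorem tr_eventually_id [T2Space M] [ProperSpace E]
    (hχ : Metric.closedBall (0 : E) 8 ⊆ χ.target) {p : M}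
    (hp : p ∉ χ.symm '' Metric.closedBall (0 : E) 8) :
    ∀ᶠ q in 𝓝 p, q ∉ χ.symm '' Metric.closedBall (0 : E) 8 :=
  (isCompact_ball hχ).isClosed.isOpen_compl.mem_nhds hp

theorem tr_continuous [T2Space M] [ProperSpace E] (hχ : Metric.closedBall (0 : E) 8 ⊆ χ.target)
    {H : E → E} (h : Sup H) (hc : Continuous H) : Continuous (tr χ H) := by
  rw [continuous_iff_continuousAt]
  intro p
  by_cases hp : p ∈ χ.source
  · have h1 : ContinuousAt (fun q => χ.symm (H (χ q))) p := by
      have h2 : ContinuousAt χ.symm (H (χ p)) :=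
        χ.symm.continuousAt (h.target hχ (χ.map_source hp))
      have h3 : ContinuousAt (fun q => H (χ q)) p :=
        ContinuousAt.comp (g := H) hc.continuousAt (χ.continuousAt hp)
      exact ContinuousAt.comp (g := χ.symm) h2 h3
    refine h1.congr ?_
    filter_upwards [χ.open_source.mem_nhds hp] with q hq
    rw [tr_source hq]
  · have hp' : p ∉ χ.symm '' Metric.closedBall (0 : E) 8 := by
      rintro ⟨u, hu, rfl⟩
      exact hp (χ.map_target (hχ hu))
    refine continuousAt_id.congr ?_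
    filter_upwards [tr_eventually_id hχ hp'] with q hq
    rw [tr_out h hq]
    rfl

/-- transport of a homeomorphism -/
noncomputable def trHomeo [T2Space M] [ProperSpace E]
    (hχ : Metric.closedBall (0 : E) 8 ⊆ χ.target) (H : E ≃ₜ E) (h : Sup H) : M ≃ₜ M where
  toFun := tr χ H
  invFun := tr χ H.symm
  left_inv p := by
    rw [tr_comp hχ h]
    have : ((H.symm : E → E) ∘ H) = fun u => u := by
      funext u; simp
    rw [this, tr_id]
  right_inv p := by
    have h' : Sup (H.symm : E → E) := Sup.symm (H := H.toEquiv) h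
    rw [tr_comp hχ h']
    have : ((H : E → E) ∘ H.symm) = fun u => u := by
      funext u; simp
    rw [this, tr_id]
  continuous_toFun := tr_continuous hχ h H.continuous
  continuous_invFun := tr_continuous hχ (Sup.symm (H := H.toEquiv) h) H.symm.continuous

variable [NormedSpace ℝ E] [ChartedSpace E M]

theorem tr_contMDiff [T2Space M] [ProperSpace E] (hχ : Metric.closedBall (0 : E) 8 ⊆ χ.target)
    (hM : χ ∈ IsManifold.maximalAtlas 𝓘(ℝ, E) ∞ M) [IsManifold 𝓘(ℝ, E) ∞ M]
    {H : E → E} (h : Sup H) (hc : ContDiff ℝ ∞ H) : ContMDiff 𝓘(ℝ, E) 𝓘(ℝ, E) ∞ (tr χ H) := by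
  intro p
  by_cases hp : p ∈ χ.source
  · have h1 : ContMDiffAt 𝓘(ℝ, E) 𝓘(ℝ, E) ∞ (fun q => χ.symm (H (χ q))) p := by
      have h2 : ContMDiffAt 𝓘(ℝ, E) 𝓘(ℝ, E) ∞ χ.symm (H (χ p)) :=
        contMDiffAt_symm_of_mem_maximalAtlas hM (h.target hχ (χ.map_source hp))
      have h3 : ContMDiffAt 𝓘(ℝ, E) 𝓘(ℝ, E) ∞ χ p := contMDiffAt_of_mem_maximalAtlas hM hp
      have h4 : ContMDiffAt 𝓘(ℝ, E) 𝓘(ℝ, E) ∞ H (χ p) := hc.contMDiff.contMDiffAt
      exact h2.comp p (h4.comp p h3)
    refine h1.congr_of_eventuallyEq ?_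
    filter_upwards [χ.open_source.mem_nhds hp] with q hq
    rw [tr_source hq]
  · have hp' : p ∉ χ.symm '' Metric.closedBall (0 : E) 8 := by
      rintro ⟨u, hu, rfl⟩
      exact hp (χ.map_target (hχ hu))
    refine (contMDiffAt_id (I := 𝓘(ℝ, E)) (n := ∞) (x := p)).congr_of_eventuallyEq ?_
    filter_upwards [tr_eventually_id hχ hp'] with q hq
    rw [tr_out h hq]
    rfl

/-- transport of a diffeomorphism -/
noncomputable def trDiffeo [T2Space M] [ProperSpace E]
    (hχ : Metric.closedBall (0 : E) 8 ⊆ χ.target)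
    (hM : χ ∈ IsManifold.maximalAtlas 𝓘(ℝ, E) ∞ M) [IsManifold 𝓘(ℝ, E) ∞ M]
    (H : E ≃ₜ E) (h : Sup H) (hc : ContDiff ℝ ∞ H) (hc' : ContDiff ℝ ∞ H.symm) :
    Diffeomorph 𝓘(ℝ, E) 𝓘(ℝ, E) M M ∞ where
  toEquiv := (trHomeo hχ H h).toEquiv
  contMDiff_toFun := tr_contMDiff hχ hM h hc
  contMDiff_invFun := tr_contMDiff hχ hM (Sup.symm (H := H.toEquiv) h) hc'

theorem trDiffeo_apply [T2Space M] [ProperSpace E]
    (hχ : Metric.closedBall (0 : E) 8 ⊆ χ.target)
    (hM : χ ∈ IsManifold.maximalAtlas 𝓘(ℝ, E) ∞ M) [IsManifold 𝓘(ℝ, E) ∞ M]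
    (H : E ≃ₜ E) (h : Sup H) (hc : ContDiff ℝ ∞ H) (hc' : ContDiff ℝ ∞ H.symm) (p : M) :
    trDiffeo hχ hM H h hc hc' p = tr χ H p := rfl

/-- there is a good chart -/
theorem exists_chart [ProperSpace E] [IsManifold 𝓘(ℝ, E) ∞ M] [Nonempty M] :
    ∃ χ : OpenPartialHomeomorph M E, χ ∈ IsManifold.maximalAtlas 𝓘(ℝ, E) ∞ M ∧
      Metric.closedBall (0 : E) 8 ⊆ χ.target := by
  obtain ⟨p0⟩ := (inferInstance : Nonempty M)
  set φ := chartAt E p0 with hφ
  have h1 : φ.target ∈ 𝓝 (φ p0) := φ.open_target.mem_nhds (φ.map_source (mem_chart_source E p0))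
  obtain ⟨ε, hε, hb⟩ := Metric.mem_nhds_iff.1 h1
  -- the affine map
  let A : E ≃ₜ E := (Homeomorph.addRight (-(φ p0))).trans (Homeomorph.smulOfNeZero (9 / ε)
    (by positivity))
  have hA : ∀ u, A u = (9 / ε) • (u + -(φ p0)) := fun u => rfl
  have hAs : ∀ u, A.symm u = (9 / ε)⁻¹ • u + φ p0 := by
    intro u
    rw [Homeomorph.symm_apply_eq, hA, add_neg_cancel_right, smul_smul, mul_inv_cancel₀
      (by positivity), one_smul]
  refine ⟨φ.trans A.toOpenPartialHomeomorph, ?_, ?_⟩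
  · have hcA : ContDiff ℝ ∞ A := by
      have : (A : E → E) = fun u => (9 / ε) • (u + -(φ p0)) := funext hA
      rw [this]
      fun_prop
    have hcAs : ContDiff ℝ ∞ A.symm := by
      have : (A.symm : E → E) = fun u => (9 / ε)⁻¹ • u + φ p0 := funext hAs
      rw [this]
      fun_prop
    have hmem : A.toOpenPartialHomeomorph ∈ contDiffGroupoid ∞ 𝓘(ℝ, E) := by
      rw [contDiffGroupoid, mem_groupoid_of_pregroupoid]
      constructor
      · simpa [contDiffPregroupoid] using hcA.contDiffOn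
      · simpa [contDiffPregroupoid] using hcAs.contDiffOn
    have hφm : φ ∈ IsManifold.maximalAtlas 𝓘(ℝ, E) ∞ M := IsManifold.chart_mem_maximalAtlas p0
    have hφm' := mem_maximalAtlas_iff.1 hφm
    refine mem_maximalAtlas_iff.2 fun e' he' => ⟨?_, ?_⟩
    · rw [OpenPartialHomeomorph.trans_symm_eq_symm_trans_symm, OpenPartialHomeomorph.trans_assoc]
      exact (contDiffGroupoid ∞ 𝓘(ℝ, E)).trans ((contDiffGroupoid ∞ 𝓘(ℝ, E)).symm hmem)
        (hφm' e' he').1
    · rw [← OpenPartialHomeomorph.trans_assoc]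
      exact (contDiffGroupoid ∞ 𝓘(ℝ, E)).trans (hφm' e' he').2 hmem
  · intro u hu
    rw [mem_closedBall_zero_iff] at hu
    rw [OpenPartialHomeomorph.trans_target]
    refine ⟨by simp, ?_⟩
    show A.symm u ∈ φ.target
    apply hb
    rw [Metric.mem_ball, dist_eq_norm, hAs, add_sub_cancel_right, norm_smul, norm_inv,
      Real.norm_of_nonneg (by positivity)]
    rw [inv_div, div_mul_eq_mul_div, div_lt_iff₀ (by norm_num)]
    nlinarith

end Pool.Agent.W2helper9.TC
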